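import Pool.Agent.Q167.AN.C
import Pool.Agent.Q167.SQ.G

/-! # Random sets in residue classes: tools for every order of independence -/

set_option autoImplicit false

namespace Q167.PR

open Finset MeasureTheory Filter Topology Q198.CI Q167.LI Q167.AN Q167.SQ

/-- a Borel-Cantelli lemma with weights -/
lemma wbc {Ω : Type*} [MeasurableSpace Ω] (P : Measure Ω) {B : ℕ → Set Ω}
    (hB : ∀ d, MeasurableSet (B d)) {u b : ℕ → ℝ} (hu : ∀ d, 0 ≤ u d)
    (hb : ∀ d, P (B d) ≤ ENNReal.ofReal (b d)) (hs : Summable fun d => u d * b d) :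
    ∀ᵐ ω ∂P, Summable fun d => (B d).indicator (fun _ => u d) ω := by
  have hmeas : ∀ d, Measurable fun ω => (B d).indicator (fun _ => ENNReal.ofReal (u d)) ω :=
    fun d => measurable_const.indicator (hB d)
  have h1 : ∫⁻ ω, ∑' d, (B d).indicator (fun _ => ENNReal.ofReal (u d)) ω ∂P ≠ ⊤ := by
    rw [lintegral_tsum fun d => (hmeas d).aemeasurable]
    have h2 : ∀ d, ∫⁻ ω, (B d).indicator (fun _ => ENNReal.ofReal (u d)) ω ∂P ≤
        ENNReal.ofReal (u d * b d) := by
      intro d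
      rw [lintegral_indicator (hB d), setLIntegral_const, ENNReal.ofReal_mul (hu d)]
      exact mul_le_mul' le_rfl (hb d)
    exact ne_top_of_le_ne_top hs.tsum_ofReal_ne_top (ENNReal.tsum_le_tsum h2)
  have h3 := ae_lt_top (Measurable.tsum hmeas) h1
  filter_upwards [h3] with ω hω
  have h4 := ENNReal.summable_toReal hω.ne
  refine h4.congr fun d => ?_
  by_cases h : ω ∈ B d
  · simp [h, ENNReal.toReal_ofReal (hu d)]
  · simp [h]

/-- the elements `a + j d`, `1 ≤ j ≤ J` -/
def cls (J d a : ℕ) : Finset ℕ := (Icc 1 J).image fun j => a + j * d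

lemma mem_cls {J d a n : ℕ} : n ∈ cls J d a ↔ ∃ j, (1 ≤ j ∧ j ≤ J) ∧ a + j * d = n := by
  simp [cls]

lemma card_cls {J d a : ℕ} (hd : 0 < d) : (cls J d a).card = J := by
  unfold cls
  rw [card_image_of_injective, Nat.card_Icc]
  · omega
  · intro i j hij
    simp only at hij
    exact Nat.eq_of_mul_eq_mul_right hd (by omega)

/-- bounds for the classes without elements, in every model -/
theorem prog_upper {Ω : Type*} [MeasurableSpace Ω] (P : Measure Ω) [IsProbabilityMeasure P]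
    {E : ℕ → Set Ω} {κ : ℕ → ℕ} (hE : ∀ n, MeasurableSet (E n))
    (hT : ∀ T : Finset ℕ, (∀ n ∈ T, 3 ≤ n ∧ T.card ≤ κ n) →
      P (⋂ n ∈ T, E n) = ENNReal.ofReal (∏ n ∈ T, 1 / Real.log n))
    {J m : ℕ → ℕ} {u b : ℕ → ℝ} {D : Set ℕ} (hu : ∀ d, 0 ≤ u d)
    (h : ∀ᶠ d : ℕ in atTop, d ∈ D → 1 ≤ m d ∧ m d ≤ J d ∧ (∀ y, d < y → 2 * m d ≤ κ y) ∧
      (d : ℝ) * (Real.exp 1 * m d * ((m d * Real.log (((J d : ℝ) + 1) * d)) /
        (Real.exp 1 * ((J d : ℝ) - m d + 1))) ^ m d) ≤ b d)
    (hs : Summable fun d => u d * b d) :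
    ∀ᵐ ω ∂P, Summable fun d => {d : ℕ | d ∈ D ∧ ∃ a, 1 ≤ a ∧ a < d ∧
      ∀ j, 1 ≤ j → j ≤ J d → ω ∉ E (a + j * d)}.indicator u d := by
  classical
  obtain ⟨d₀, hd₀⟩ := eventually_atTop.1 h
  set good : ℕ → Prop := fun d => max d₀ 3 ≤ d ∧ d ∈ D with hgood
  set B : ℕ → Set Ω := fun d => if good d then ⋃ a ∈ Ico 1 d, ⋂ n ∈ cls (J d) d a, (E n)ᶜ else ∅
    with hBdef
  have hB : ∀ d, MeasurableSet (B d) := by
    intro d
    simp only [hBdef]
    split_ifs with hg
    · refine Finset.measurableSet_biUnion _ fun a _ => Finset.measurableSet_biInter _ fun n _ => ?_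
      exact (hE n).compl
    · exact MeasurableSet.empty
  set b' : ℕ → ℝ := fun d => if good d then b d else 0 with hb'
  have hb : ∀ d, P (B d) ≤ ENNReal.ofReal (b' d) := by
    intro d
    simp only [hBdef, hb']
    by_cases hg : good d
    swap
    · rw [if_neg hg, if_neg hg, measure_empty]
      exact zero_le
    rw [if_pos hg, if_pos hg]
    obtain ⟨h1, h2, h3, h4⟩ := hd₀ d ((le_max_left _ _).trans hg.1) hg.2
    have hd3 : 3 ≤ d := (le_max_right _ _).trans hg.1
    have hdp : 0 < d := by omega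
    have hdR : (3:ℝ) ≤ d := by exact_mod_cast hd3
    have hJ0 : (0:ℝ) ≤ J d := Nat.cast_nonneg _
    have hmR : (1:ℝ) ≤ m d := by exact_mod_cast h1
    have hmJ : (m d : ℝ) ≤ J d := by exact_mod_cast h2
    have hL : 0 < Real.log (((J d : ℝ) + 1) * d) := by
      apply Real.log_pos
      nlinarith
    refine (measure_biUnion_finset_le _ _).trans ?_
    have h5 : ∑ a ∈ Ico 1 d, P (⋂ n ∈ cls (J d) d a, (E n)ᶜ) ≤ ∑ a ∈ Ico 1 d,
        ENNReal.ofReal (Real.exp 1 * m d * ((m d * Real.log (((J d : ℝ) + 1) * d)) /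
          (Real.exp 1 * ((J d : ℝ) - m d + 1))) ^ m d) := by
      refine sum_le_sum fun a ha => ?_
      rw [mem_Ico] at ha
      have hmem : ∀ n ∈ cls (J d) d a, d < n ∧ n ≤ (J d + 1) * d := by
        intro n hn
        obtain ⟨j, ⟨hj1, hj2⟩, rfl⟩ := mem_cls.1 hn
        constructor
        · have : 1 * d ≤ j * d := Nat.mul_le_mul_right _ hj1
          omega
        · have : j * d ≤ J d * d := Nat.mul_le_mul_right _ hj2
          rw [add_mul, one_mul]
          omega
      refine (empty_le P hE h1 (by rw [card_cls hdp]; exact h2) (fun n hn => ?_) ?_ hL ?_).trans ?_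
      · have := (hmem n hn).1
        omega
      · intro T hT1 hT2
        rw [hT T fun n hn => ⟨by have := (hmem n (hT1 hn)).1; omega,
          hT2.trans (h3 n (hmem n (hT1 hn)).1)⟩]
        congr 1
        refine prod_congr rfl fun n hn => ?_
        unfold cp
        rw [if_pos (by have := (hmem n (hT1 hn)).1; omega)]
      · intro n hn
        have h6 := hmem n hn
        apply Real.log_le_log (by exact_mod_cast (by omega : 0 < n))
        exact_mod_cast h6.2
      · rw [card_cls hdp]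
        apply ENNReal.ofReal_le_ofReal
        apply le_of_eq
        have h7 : 0 < (J d : ℝ) - m d + 1 := by linarith
        rw [one_div, inv_div, div_eq_mul_inv, ← inv_pow, inv_div]
        congr 2
        field_simp
    refine h5.trans ?_
    rw [sum_const, nsmul_eq_mul, Nat.card_Ico]
    have h8 : (((d - 1 : ℕ)) : ENNReal) ≤ ENNReal.ofReal (d : ℝ) := by
      rw [ENNReal.ofReal_natCast]
      exact_mod_cast Nat.sub_le _ _
    refine (mul_le_mul' h8 le_rfl).trans ?_
    rw [← ENNReal.ofReal_mul (Nat.cast_nonneg _)]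
    exact ENNReal.ofReal_le_ofReal h4
  have hs' : Summable fun d => u d * b' d := by
    by_contra hcon
    apply hcon
    have h9 : Summable fun d => {d : ℕ | good d}.indicator (fun d => u d * b d) d :=
      hs.indicator _
    refine h9.congr fun d => ?_
    by_cases hg : good d
    · simp [hb', hg, Set.indicator]
    · simp [hb', hg, Set.indicator]
  have h10 := wbc P hB hu hb hs'
  filter_upwards [h10] with ω hω
  rw [← summable_nat_add_iff (max d₀ 3)] at hω ⊢
  refine hω.congr fun d => ?_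
  have hd : max d₀ 3 ≤ d + max d₀ 3 := Nat.le_add_left _ _
  set d' := d + max d₀ 3 with hd'
  have key : ω ∈ B d' ↔ d' ∈ {d : ℕ | d ∈ D ∧ ∃ a, 1 ≤ a ∧ a < d ∧
      ∀ j, 1 ≤ j → j ≤ J d → ω ∉ E (a + j * d)} := by
    simp only [hBdef, Set.mem_ofPred_eq]
    by_cases hg : good d'
    · rw [if_pos hg]
      simp only [Set.mem_iUnion, Set.mem_iInter, Set.mem_compl_iff, mem_Ico]
      constructor
      · rintro ⟨a, ⟨ha1, ha2⟩, ha⟩
        refine ⟨hg.2, a, ha1, ha2, fun j hj1 hj2 => ?_⟩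
        exact ha _ (mem_cls.2 ⟨j, ⟨hj1, hj2⟩, rfl⟩)
      · rintro ⟨_, a, ha1, ha2, ha⟩
        refine ⟨a, ⟨ha1, ha2⟩, fun n hn => ?_⟩
        obtain ⟨j, ⟨hj1, hj2⟩, rfl⟩ := mem_cls.1 hn
        exact ha j hj1 hj2
    · rw [if_neg hg]
      constructor
      · intro h0
        exact absurd h0 (Set.notMem_empty _)
      · rintro ⟨h0, _⟩
        exact absurd ⟨hd, h0⟩ hg
  by_cases hk : ω ∈ B d'
  · rw [Set.indicator_of_mem hk, Set.indicator_of_mem (key.1 hk)]
  · rw [Set.indicator_of_notMem hk, Set.indicator_of_notMem (fun h0 => hk (key.2 h0))]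

end Q167.PR
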