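import Pool.Agent.Q167.PR.A

/-! # Models with empty residue classes -/

set_option autoImplicit false

namespace Q167.PR

open Finset MeasureTheory Filter Topology Q198.CI Q167.LI Q167.AN Q167.SQ

/-- the elements `a + j d`, `0 ≤ j ≤ J` -/
def cls0 (J d a : ℕ) : Finset ℕ := (range (J + 1)).image fun j => a + j * d

lemma mem_cls0 {J d a n : ℕ} : n ∈ cls0 J d a ↔ ∃ j, j ≤ J ∧ a + j * d = n := by
  simp [cls0, Nat.lt_succ_iff]

lemma card_cls0 {J d a : ℕ} (hd : 0 < d) : (cls0 J d a).card = J + 1 := by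
  unfold cls0
  rw [card_image_of_injective, card_range]
  intro i j hij
  simp only at hij
  exact Nat.eq_of_mul_eq_mul_right hd (by omega)

/-- the residues prime to `d` in the interval `[φ(d)/2, d)` -/
def res (d : ℕ) : Finset ℕ := (range d).filter fun a => Nat.Coprime d a ∧ d.totient ≤ 2 * a

lemma card_res {d : ℕ} : (d.totient : ℝ) / 2 - 1 ≤ (res d).card := by
  have h1 : d.totient ≤ (res d).card + (d.totient / 2 + 1) := by
    have h2 : (range d).filter (fun a => Nat.Coprime d a) ⊆ res d ∪ range (d.totient / 2 + 1) := by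
      intro a ha
      rw [mem_filter, mem_range] at ha
      rw [mem_union]
      by_cases h : d.totient ≤ 2 * a
      · left
        rw [res, mem_filter, mem_range]
        exact ⟨ha.1, ha.2, h⟩
      · right
        rw [mem_range]
        omega
    have h3 := card_le_card h2
    have h4 := card_union_le (res d) (range (d.totient / 2 + 1))
    rw [card_range] at h4
    have h5 : d.totient = ((range d).filter fun a => Nat.Coprime d a).card := rfl
    omega
  have h6 : (d.totient : ℝ) ≤ (res d).card + ((d.totient / 2 : ℕ) + 1) := by exact_mod_cast h1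
  have h7 : ((d.totient / 2 : ℕ) : ℝ) ≤ (d.totient : ℝ) / 2 := Nat.cast_div_le
  linarith

/-- the `k`-th residue -/
noncomputable def rk (d k : ℕ) : ℕ := if h : k < (res d).card then
  ((res d).equivFin.symm ⟨k, h⟩ : ℕ) else 0

lemma rk_mem {d k : ℕ} (h : k < (res d).card) : rk d k ∈ res d := by
  unfold rk
  rw [dif_pos h]
  exact ((res d).equivFin.symm ⟨k, h⟩).2

lemma rk_inj {d k k' : ℕ} (h : k < (res d).card) (h' : k' < (res d).card)
    (hkk : rk d k = rk d k') : k = k' := by
  unfold rk at hkk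
  rw [dif_pos h, dif_pos h'] at hkk
  have h1 := (res d).equivFin.symm.injective (Subtype.ext hkk)
  exact Fin.mk.inj_iff.1 h1

lemma totient_tendsto (R : ℕ) : ∀ᶠ d : ℕ in atTop, R ≤ d.totient := by
  have h1 : Tendsto (fun n : ℕ => (n : ℝ) / ((Nat.log 2 n : ℝ) + 1)) atTop atTop := by
    have h2 : ∀ᶠ n : ℕ in atTop, (n : ℝ) ^ (1 / 2 : ℝ) / 4 ≤ (n : ℝ) / ((Nat.log 2 n : ℝ) + 1) := by
      filter_upwards [eventually_ge_atTop 1] with n hn
      have hn0 : (0:ℝ) < n := by exact_mod_cast hn
      have hn1 : (1:ℝ) ≤ n := by exact_mod_cast hn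
      have h3 : (Nat.log 2 n : ℝ) ≤ 3 * (n : ℝ) ^ (1 / 2 : ℝ) := by
        have h4 : (Nat.log 2 n : ℝ) ≤ Real.logb 2 n := Real.natLog_le_logb n 2
        have h5 : Real.logb 2 n = Real.log n / Real.log 2 := rfl
        have h6 : Real.log n ≤ (n : ℝ) ^ (1 / 2 : ℝ) / (1 / 2) :=
          Real.log_le_rpow_div hn0.le (by norm_num)
        have h7 : (0.6931471803:ℝ) < Real.log 2 := Real.log_two_gt_d9
        rw [h5] at h4
        refine h4.trans ?_
        rw [div_le_iff₀ (by linarith)]
        have h8 : 0 ≤ (n : ℝ) ^ (1 / 2 : ℝ) := by positivity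
        nlinarith
      have h9 : (1:ℝ) ≤ (n : ℝ) ^ (1 / 2 : ℝ) := Real.one_le_rpow hn1 (by norm_num)
      have h10 : (n : ℝ) ^ (1 / 2 : ℝ) * (n : ℝ) ^ (1 / 2 : ℝ) = n := by
        rw [← Real.rpow_add hn0]
        norm_num
      rw [div_le_div_iff₀ (by norm_num) (by positivity)]
      nlinarith
    refine tendsto_atTop_mono' _ h2 ?_
    exact ((tendsto_rpow_atTop (by norm_num : (0:ℝ) < 1 / 2)).comp
      tendsto_natCast_atTop_atTop).atTop_div_const (by norm_num)
  filter_upwards [h1.eventually_ge_atTop (R : ℝ), eventually_ge_atTop 1] with d hd hd1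
  have h2 := totient_ge (n := d) (by omega)
  exact_mod_cast hd.trans h2

/-- a model in which infinitely many moduli have an empty residue class -/
theorem prog_model {κ J K : ℕ → ℕ} {δ : ℕ → ℝ} {D : Set ℕ}
    (hD : ∃ᶠ d : ℕ in atTop, d ∈ D ∧ (∀ n ≤ (J d + 1) * d, κ n ≤ K d) ∧ 0 ≤ δ d ∧
      1 ≤ ((d.totient : ℝ) / 2 - 1) * δ d ∧
      ∀ a, d.totient ≤ 2 * a → a < d →
        ∃ w : Finset ℕ → ℝ, IsLaw (cls0 (J d) d a) (K d) cp w ∧ δ d ≤ w ∅) :
    ∃ (Ω : Type) (_ : MeasurableSpace Ω) (P : Measure Ω) (_ : IsProbabilityMeasure P)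
      (E : ℕ → Set Ω), (∀ n, MeasurableSet (E n)) ∧
      (∀ T : Finset ℕ, (∀ n ∈ T, 3 ≤ n ∧ T.card ≤ κ n) →
        P (⋂ n ∈ T, E n) = ENNReal.ofReal (∏ n ∈ T, 1 / Real.log n)) ∧
      ∀ᵐ ω ∂P, ∃ᶠ d : ℕ in atTop, d ∈ D ∧ ∃ a, 1 ≤ a ∧ a < d ∧ Nat.Coprime a d ∧
        ∀ j ≤ J d, ω ∉ E (a + j * d) := by
  classical
  set good : ℕ → Prop := fun d => d ∈ D ∧ (∀ n ≤ (J d + 1) * d, κ n ≤ K d) ∧ 0 ≤ δ d ∧
      1 ≤ ((d.totient : ℝ) / 2 - 1) * δ d ∧
      ∀ a, d.totient ≤ 2 * a → a < d →
        ∃ w : Finset ℕ → ℝ, IsLaw (cls0 (J d) d a) (K d) cp w ∧ δ d ≤ w ∅ with hgood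
  have hstep : ∀ R : ℕ, ∃ d, good d ∧ R ≤ d ∧ 2 * R + 4 ≤ d.totient := by
    intro R
    obtain ⟨d, h1, h2, h3⟩ := (hD.and_eventually
      ((eventually_ge_atTop R).and (totient_tendsto (2 * R + 4)))).exists
    exact ⟨d, h1, h2, h3⟩
  choose g hg1 hg2 hg3 using hstep
  set top : ℕ → ℕ := fun d => (J d + 1) * d with htop
  set q : ℕ → ℕ := fun i => Nat.rec (g 0) (fun _ d => g (top d)) i with hq
  have hq1 : ∀ i, q (i + 1) = g (top (q i)) := fun i => rfl
  have hqgood : ∀ i, good (q i) := by
    intro i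
    cases i with
    | zero => exact hg1 0
    | succ i => rw [hq1]; exact hg1 _
  have hqtot : ∀ i, 4 ≤ (q i).totient := by
    intro i
    cases i with
    | zero =>
      have h0 := hg3 0
      change 4 ≤ (g 0).totient
      omega
    | succ i =>
      have h0 := hg3 (top (q i))
      rw [hq1]
      omega
  have hqpos : ∀ i, 0 < q i := by
    intro i
    have := hqtot i
    by_contra h0
    have h1 : q i = 0 := by omega
    rw [h1, Nat.totient_zero] at this
    omega
  have hqtop : ∀ i, q i ≤ top (q i) := by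
    intro i
    exact Nat.le_mul_of_pos_left _ (by omega)
  have hqsep : ∀ i, 2 * top (q i) < (q (i + 1)).totient := by
    intro i
    have := hg3 (top (q i))
    rw [hq1]
    omega
  have htot_le : ∀ d : ℕ, d.totient ≤ d := fun d => Nat.totient_le d
  have hqmono : StrictMono q := by
    apply strictMono_nat_of_lt_succ
    intro i
    have h1 := hqtop i
    have h2 := hqsep i
    have h3 := htot_le (q (i + 1))
    omega
  have htopmono : ∀ i i', i < i' → 2 * top (q i) < (q i').totient := by
    intro i i' hii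
    induction i', hii using Nat.le_induction with
    | base => exact hqsep i
    | succ n hn ih =>
      have h1 := hqsep n
      have h2 := hqtop n
      have h3 := htot_le (q n)
      omega
  have hrange : ∀ i k n, k < (res (q i)).card → n ∈ cls0 (J (q i)) (q i) (rk (q i) k) →
      (q i).totient ≤ 2 * n ∧ n ≤ top (q i) := by
    intro i k n hk hn
    obtain ⟨j, hj, rfl⟩ := mem_cls0.1 hn
    have h1 := rk_mem hk
    rw [res, mem_filter, mem_range] at h1
    constructor
    · omega
    · simp only [htop]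
      have h2 : j * q i ≤ J (q i) * q i := Nat.mul_le_mul_right _ hj
      rw [add_mul, one_mul]
      omega
  obtain ⟨Ω, mΩ, P, hP, E, hE, hT, hae⟩ := scale_model
    (W := fun i k => cls0 (J (q i)) (q i) (rk (q i) k)) (cnt := fun i => (res (q i)).card)
    (κ := κ) (K := fun i => K (q i)) (p := cp) (δ := fun i => δ (q i))
    (by
      intro i k i' k' n hk hk' hn hn'
      have h1 := hrange i k n hk hn
      have h2 := hrange i' k' n hk' hn'
      have hii : i = i' := by
        rcases lt_trichotomy i i' with h | h | h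
        · have := htopmono i i' h
          omega
        · exact h
        · have := htopmono i' i h
          omega
      subst hii
      refine ⟨rfl, ?_⟩
      apply rk_inj hk hk'
      obtain ⟨j, hj, hjn⟩ := mem_cls0.1 hn
      obtain ⟨j', hj', hjn'⟩ := mem_cls0.1 hn'
      have h3 := rk_mem hk
      have h4 := rk_mem hk'
      rw [res, mem_filter, mem_range] at h3 h4
      have h5 : (rk (q i) k + j * q i) % q i = (rk (q i) k' + j' * q i) % q i := by
        rw [hjn, hjn']
      rw [Nat.add_mul_mod_self_right, Nat.add_mul_mod_self_right, Nat.mod_eq_of_lt h3.1,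
        Nat.mod_eq_of_lt h4.1] at h5
      exact h5)
    cp_nonneg cp_le_one
    (by
      intro i k n hk hn
      exact (hqgood i).2.1 n (hrange i k n hk hn).2)
    (fun i => (hqgood i).2.2.1)
    (by
      intro i k hk
      have h3 := rk_mem hk
      rw [res, mem_filter, mem_range] at h3
      exact (hqgood i).2.2.2.2 _ h3.2.2 h3.1)
    (fun _ => Set.univ)
    (by
      intro _ hsum
      rw [Set.indicator_univ] at hsum
      have h1 := hsum.tendsto_atTop_zero
      obtain ⟨i, hi⟩ := (h1.eventually_lt_const (by norm_num : (0:ℝ) < 1)).exists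
      have h2 := (hqgood i).2.2.2.1
      have h3 := card_res (d := q i)
      have h4 := mul_le_mul_of_nonneg_right h3 (hqgood i).2.2.1
      linarith)
  refine ⟨Ω, mΩ, P, hP, E, hE, ?_, ?_⟩
  · intro T hT'
    rw [hT T fun n hn => (hT' n hn).2]
    congr 1
    refine prod_congr rfl fun n hn => ?_
    unfold cp
    rw [if_pos (hT' n hn).1]
  · filter_upwards [hae] with ω hω
    rw [frequently_atTop]
    intro d₀
    obtain ⟨i, hi, _, k, hk, hkn⟩ := hω 0 d₀
    refine ⟨q i, hi.trans (hqmono.id_le i), (hqgood i).1, rk (q i) k, ?_, ?_, ?_, ?_⟩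
    · have h3 := rk_mem hk
      rw [res, mem_filter, mem_range] at h3
      have := hqtot i
      omega
    · have h3 := rk_mem hk
      rw [res, mem_filter, mem_range] at h3
      exact h3.1
    · have h3 := rk_mem hk
      rw [res, mem_filter, mem_range] at h3
      exact h3.2.1.symm
    · intro j hj
      exact hkn _ (mem_cls0.2 ⟨j, hj, rfl⟩)

end Q167.PR
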