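import Pool.Agent.Q167.PR.B

/-! # Least elements of residue classes under independence of a fixed order -/

set_option autoImplicit false

namespace Q167.PR

open Finset MeasureTheory Filter Topology Q198.CI Q167.LI Q167.AN Q167.SQ

/-- every reduced class modulo `d` has an element of `A` below `t` -/
def Below (A : Set ℕ) (d : ℕ) (t : ℝ) : Prop :=
  ∀ a, 1 ≤ a → a < d → Nat.Coprime a d → ∃ j : ℕ, a + j * d ∈ A ∧ ((a + j * d : ℕ) : ℝ) < t

lemma Below.mono {A : Set ℕ} {d : ℕ} {t t' : ℝ} (h : Below A d t) (ht : t ≤ t') :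
    Below A d t' := by
  intro a h1 h2 h3
  obtain ⟨j, h4, h5⟩ := h a h1 h2 h3
  exact ⟨j, h4, h5.trans_le ht⟩

/-- the classes without small elements for a fixed order of independence -/
theorem fixed_upper {Ω : Type*} [MeasurableSpace Ω] (P : Measure Ω) [IsProbabilityMeasure P]
    {E : ℕ → Set Ω} {κ : ℕ → ℕ} (hE : ∀ n, MeasurableSet (E n))
    (hT : ∀ T : Finset ℕ, (∀ n ∈ T, 3 ≤ n ∧ T.card ≤ κ n) →
      P (⋂ n ∈ T, E n) = ENNReal.ofReal (∏ n ∈ T, 1 / Real.log n))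
    {m : ℕ} (hm : 1 ≤ m) (hκ : ∀ᶠ n : ℕ in atTop, 2 * m ≤ κ n) {θ : ℝ} (hθ : 0 < θ)
    {u : ℕ → ℝ} (hu : ∀ d, 0 ≤ u d)
    (hs : Summable fun d : ℕ => u d * ((d : ℝ) * (Real.log d / (d : ℝ) ^ θ) ^ m)) :
    ∀ᵐ ω ∂P, Summable fun d => {d : ℕ | ¬ Below {n | ω ∈ E n} d ((d : ℝ) ^ (1 + θ))}.indicator
      u d := by
  set C : ℝ := Real.exp 1 * m * (2 * m * (1 + θ) / Real.exp 1) ^ m with hC
  have hm0 : (0:ℝ) < m := by exact_mod_cast hm
  have he := Real.exp_pos 1
  have hpow : Tendsto (fun d : ℕ => (d : ℝ) ^ θ) atTop atTop :=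
    (tendsto_rpow_atTop hθ).comp tendsto_natCast_atTop_atTop
  obtain ⟨n₀, hn₀⟩ := eventually_atTop.1 hκ
  have h1 := prog_upper P hE hT (J := fun d => ⌊(d : ℝ) ^ θ⌋₊ - 1) (m := fun _ => m) (u := u)
    (b := fun d => C * ((d : ℝ) * (Real.log d / (d : ℝ) ^ θ) ^ m)) (D := Set.univ) hu
    (by
      filter_upwards [hpow.eventually_ge_atTop (2 * (m : ℝ) + 4), eventually_ge_atTop 3,
        eventually_ge_atTop n₀] with d hd hd3 hdn
      intro _
      have hdR : (3:ℝ) ≤ d := by exact_mod_cast hd3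
      have hd0 : (0:ℝ) < d := by linarith
      have hX0 : 0 < (d : ℝ) ^ θ := by positivity
      have hfl : (⌊(d : ℝ) ^ θ⌋₊ : ℝ) ≤ (d : ℝ) ^ θ := Nat.floor_le hX0.le
      have hfl2 : (d : ℝ) ^ θ - 1 < ⌊(d : ℝ) ^ θ⌋₊ := Nat.sub_one_lt_floor _
      have hfl1 : 1 ≤ ⌊(d : ℝ) ^ θ⌋₊ := Nat.le_floor (by push_cast; linarith)
      have hcast : ((⌊(d : ℝ) ^ θ⌋₊ - 1 : ℕ) : ℝ) = (⌊(d : ℝ) ^ θ⌋₊ : ℝ) - 1 := by
        rw [Nat.cast_sub hfl1, Nat.cast_one]
      have hlog : 0 < Real.log d := Real.log_pos (by linarith)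
      refine ⟨hm, ?_, fun y hy => hn₀ y (by omega), ?_⟩
      · have h2 : ((m + 1 : ℕ) : ℝ) ≤ ⌊(d : ℝ) ^ θ⌋₊ := by push_cast; linarith
        have h3 : m + 1 ≤ ⌊(d : ℝ) ^ θ⌋₊ := by exact_mod_cast h2
        omega
      · rw [hcast]
        have h4 : Real.log ((((⌊(d : ℝ) ^ θ⌋₊ : ℝ) - 1) + 1) * d) ≤ (1 + θ) * Real.log d := by
          have h5 : (((⌊(d : ℝ) ^ θ⌋₊ : ℝ) - 1) + 1) * d ≤ (d : ℝ) ^ (1 + θ) := by
            rw [Real.rpow_add hd0, Real.rpow_one]
            nlinarith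
          refine (Real.log_le_log ?_ h5).trans (le_of_eq (Real.log_rpow hd0 _))
          have h6 : (1:ℝ) ≤ ⌊(d : ℝ) ^ θ⌋₊ := by exact_mod_cast hfl1
          apply mul_pos (by linarith) hd0
        have h7 : (d : ℝ) ^ θ / 2 ≤ ((⌊(d : ℝ) ^ θ⌋₊ : ℝ) - 1) - m + 1 := by linarith
        have h8 : (m * Real.log ((((⌊(d : ℝ) ^ θ⌋₊ : ℝ) - 1) + 1) * d)) /
            (Real.exp 1 * (((⌊(d : ℝ) ^ θ⌋₊ : ℝ) - 1) - m + 1)) ≤
            (2 * m * (1 + θ) / Real.exp 1) * (Real.log d / (d : ℝ) ^ θ) := by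
          calc _ ≤ (m * ((1 + θ) * Real.log d)) / (Real.exp 1 * ((d : ℝ) ^ θ / 2)) := by
                apply div_le_div₀ (by positivity) _ (by positivity) _
                · exact mul_le_mul_of_nonneg_left h4 hm0.le
                · exact mul_le_mul_of_nonneg_left h7 he.le
            _ = _ := by
                field_simp
        have h9 : 0 ≤ (m * Real.log ((((⌊(d : ℝ) ^ θ⌋₊ : ℝ) - 1) + 1) * d)) /
            (Real.exp 1 * (((⌊(d : ℝ) ^ θ⌋₊ : ℝ) - 1) - m + 1)) := by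
          have h6 : (1:ℝ) ≤ ⌊(d : ℝ) ^ θ⌋₊ := by exact_mod_cast hfl1
          apply div_nonneg
          · apply mul_nonneg hm0.le
            apply Real.log_nonneg
            nlinarith
          · apply mul_nonneg he.le
            linarith
        have h10 := pow_le_pow_left₀ h9 h8 m
        rw [mul_pow] at h10
        calc (d : ℝ) * (Real.exp 1 * m * ((m * Real.log ((((⌊(d : ℝ) ^ θ⌋₊ : ℝ) - 1) + 1) * d)) /
            (Real.exp 1 * (((⌊(d : ℝ) ^ θ⌋₊ : ℝ) - 1) - m + 1))) ^ m) ≤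
            (d : ℝ) * (Real.exp 1 * m * ((2 * m * (1 + θ) / Real.exp 1) ^ m *
              (Real.log d / (d : ℝ) ^ θ) ^ m)) := by
              apply mul_le_mul_of_nonneg_left _ hd0.le
              exact mul_le_mul_of_nonneg_left h10 (by positivity)
          _ = _ := by rw [hC]; ring)
    (by
      refine (hs.mul_left C).congr fun d => ?_
      ring)
  filter_upwards [h1] with ω hω
  refine Summable.of_nonneg_of_le (fun d => Set.indicator_nonneg (fun d _ => hu d) d)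
    (fun d => ?_) hω
  apply Set.indicator_le_indicator_of_subset _ (fun d => hu d)
  intro d hd
  refine ⟨Set.mem_univ _, ?_⟩
  unfold Below at hd
  simp only [Set.mem_ofPred_eq, not_forall, not_exists, not_and, not_lt] at hd
  obtain ⟨a, ha1, ha2, _, ha4⟩ := hd
  refine ⟨a, ha1, ha2, fun j hj1 hj2 hjE => ?_⟩
  have h2 := ha4 j hjE
  have hd1 : 1 < d := by omega
  have hd0 : (0:ℝ) < d := by exact_mod_cast (by omega : 0 < d)
  have h3 : ((a + j * d : ℕ) : ℝ) < (((⌊(d : ℝ) ^ θ⌋₊ - 1) + 1) * d : ℕ) := by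
    have h4 : a + j * d < ((⌊(d : ℝ) ^ θ⌋₊ - 1) + 1) * d := by
      have : j * d ≤ (⌊(d : ℝ) ^ θ⌋₊ - 1) * d := Nat.mul_le_mul_right _ hj2
      rw [add_mul, one_mul]
      omega
    exact_mod_cast h4
  have h5 : 1 ≤ ⌊(d : ℝ) ^ θ⌋₊ := by omega
  have h6 : (⌊(d : ℝ) ^ θ⌋₊ - 1) + 1 = ⌊(d : ℝ) ^ θ⌋₊ := by omega
  rw [h6] at h3
  push_cast at h3
  have h7 : (⌊(d : ℝ) ^ θ⌋₊ : ℝ) ≤ (d : ℝ) ^ θ := Nat.floor_le (by positivity)
  have h8 : (⌊(d : ℝ) ^ θ⌋₊ : ℝ) * d ≤ (d : ℝ) ^ (1 + θ) := by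
    rw [Real.rpow_add hd0, Real.rpow_one]
    nlinarith
  push_cast at h2
  linarith

/-- logarithms are small -/
lemma term_le {m d : ℕ} {θ ε : ℝ} (hε : 0 < ε) (hd : 1 ≤ d) :
    (d : ℝ) * (Real.log d / (d : ℝ) ^ θ) ^ m ≤ (1 / ε) ^ m * (d : ℝ) ^ (1 - θ * m + ε * m) := by
  have hd0 : (0:ℝ) < d := by exact_mod_cast hd
  have h1 : Real.log d ≤ (d : ℝ) ^ ε / ε := Real.log_le_rpow_div hd0.le hε
  have h2 : 0 ≤ Real.log (d : ℝ) := Real.log_nonneg (by exact_mod_cast hd)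
  have h3 : Real.log d / (d : ℝ) ^ θ ≤ (1 / ε) * (d : ℝ) ^ (ε - θ) := by
    rw [Real.rpow_sub hd0, div_le_iff₀ (by positivity)]
    refine h1.trans (le_of_eq ?_)
    field_simp
  have h4 := pow_le_pow_left₀ (by positivity) h3 m
  rw [mul_pow, ← Real.rpow_natCast ((d : ℝ) ^ (ε - θ)) m, ← Real.rpow_mul hd0.le] at h4
  calc (d : ℝ) * (Real.log d / (d : ℝ) ^ θ) ^ m ≤
      (d : ℝ) * ((1 / ε) ^ m * (d : ℝ) ^ ((ε - θ) * m)) := mul_le_mul_of_nonneg_left h4 hd0.le
    _ = (1 / ε) ^ m * ((d : ℝ) ^ (1:ℝ) * (d : ℝ) ^ ((ε - θ) * m)) := by rw [Real.rpow_one]; ring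
    _ = _ := by
        rw [← Real.rpow_add hd0]
        congr 2
        ring

lemma eventually_not_of_summable {S : Set ℕ}
    (h : Summable fun d => S.indicator (fun _ => (1:ℝ)) d) : ∀ᶠ d : ℕ in atTop, d ∉ S := by
  filter_upwards [h.tendsto_atTop_zero.eventually_lt_const (by norm_num : (0:ℝ) < 1)] with d hd
  intro hdS
  rw [Set.indicator_of_mem hdS] at hd
  linarith

/-- all moduli -/
theorem fixed_all {Ω : Type*} [MeasurableSpace Ω] (P : Measure Ω) [IsProbabilityMeasure P]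
    {E : ℕ → Set Ω} {κ : ℕ → ℕ} (hE : ∀ n, MeasurableSet (E n))
    (hT : ∀ T : Finset ℕ, (∀ n ∈ T, 3 ≤ n ∧ T.card ≤ κ n) →
      P (⋂ n ∈ T, E n) = ENNReal.ofReal (∏ n ∈ T, 1 / Real.log n))
    {m : ℕ} (hm : 1 ≤ m) (hκ : ∀ᶠ n : ℕ in atTop, 2 * m ≤ κ n) {ε : ℝ} (hε : 0 < ε) :
    ∀ᵐ ω ∂P, ∀ᶠ d : ℕ in atTop, Below {n | ω ∈ E n} d ((d : ℝ) ^ (1 + 2 / (m : ℝ) + ε)) := by
  have hm0 : (0:ℝ) < m := by exact_mod_cast hm
  have h1 := fixed_upper P hE hT hm hκ (θ := 2 / (m : ℝ) + ε) (by positivity) (u := fun _ => 1)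
    (fun _ => zero_le_one) (by
      simp only [one_mul]
      have h2 : Summable fun d : ℕ => (1 / (ε / 2)) ^ m * (d : ℝ) ^ (-1 - ε * m / 2) :=
        (Real.summable_nat_rpow.2 (by
          have : 0 < ε * m := by positivity
          linarith)).mul_left _
      refine Summable.of_norm_bounded_eventually_nat h2 ?_
      filter_upwards [eventually_ge_atTop 1] with d hd
      have h3 : 0 ≤ Real.log (d : ℝ) := Real.log_nonneg (by exact_mod_cast hd)
      rw [Real.norm_of_nonneg (by positivity)]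
      refine (term_le (θ := 2 / (m : ℝ) + ε) (half_pos hε) hd).trans (le_of_eq ?_)
      congr 2
      field_simp
      ring)
  filter_upwards [h1] with ω hω
  filter_upwards [eventually_not_of_summable hω] with d hd
  have hd' : Below {n | ω ∈ E n} d ((d : ℝ) ^ (1 + (2 / (m : ℝ) + ε))) := not_not.1 hd
  refine hd'.mono (le_of_eq ?_)
  congr 1
  ring

/-- sparse sets of moduli -/
theorem fixed_sparse {Ω : Type*} [MeasurableSpace Ω] (P : Measure Ω) [IsProbabilityMeasure P]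
    {E : ℕ → Set Ω} {κ : ℕ → ℕ} (hE : ∀ n, MeasurableSet (E n))
    (hT : ∀ T : Finset ℕ, (∀ n ∈ T, 3 ≤ n ∧ T.card ≤ κ n) →
      P (⋂ n ∈ T, E n) = ENNReal.ofReal (∏ n ∈ T, 1 / Real.log n))
    {m : ℕ} (hm : 1 ≤ m) (hκ : ∀ᶠ n : ℕ in atTop, 2 * m ≤ κ n) {D : Set ℕ}
    (hD : ∀ ε : ℝ, 0 < ε → Summable fun d : ℕ => D.indicator (fun d => (d : ℝ) ^ (-ε)) d)
    {ε : ℝ} (hε : 0 < ε) :
    ∀ᵐ ω ∂P, ∀ᶠ d : ℕ in atTop, d ∈ D →
      Below {n | ω ∈ E n} d ((d : ℝ) ^ (1 + 1 / (m : ℝ) + ε)) := by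
  have hm0 : (0:ℝ) < m := by exact_mod_cast hm
  have h1 := fixed_upper P hE hT hm hκ (θ := 1 / (m : ℝ) + ε) (by positivity)
    (u := D.indicator fun _ => 1) (fun d => Set.indicator_nonneg (fun _ _ => zero_le_one) d) (by
      have h2 : Summable fun d : ℕ => (1 / (ε / 2)) ^ m *
          D.indicator (fun d => (d : ℝ) ^ (-(ε * m / 2))) d :=
        (hD (ε * m / 2) (by positivity)).mul_left _
      refine Summable.of_norm_bounded_eventually_nat h2 ?_
      filter_upwards [eventually_ge_atTop 1] with d hd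
      have h3 : 0 ≤ Real.log (d : ℝ) := Real.log_nonneg (by exact_mod_cast hd)
      by_cases hdD : d ∈ D
      · rw [Set.indicator_of_mem hdD, Set.indicator_of_mem hdD, one_mul,
          Real.norm_of_nonneg (by positivity)]
        refine (term_le (θ := 1 / (m : ℝ) + ε) (half_pos hε) hd).trans (le_of_eq ?_)
        congr 2
        field_simp
        ring
      · rw [Set.indicator_of_notMem hdD, Set.indicator_of_notMem hdD]
        simp)
  filter_upwards [h1] with ω hω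
  have h4 : Summable fun d => {d : ℕ | ¬ Below {n | ω ∈ E n} d
      ((d : ℝ) ^ (1 + (1 / (m : ℝ) + ε))) ∧ d ∈ D}.indicator (fun _ => (1:ℝ)) d := by
    refine hω.congr fun d => ?_
    by_cases h5 : d ∈ {d : ℕ | ¬ Below {n | ω ∈ E n} d ((d : ℝ) ^ (1 + (1 / (m : ℝ) + ε)))}
    · rw [Set.indicator_of_mem h5]
      by_cases h6 : d ∈ D
      · rw [Set.indicator_of_mem h6]
        exact (Set.indicator_of_mem (show d ∈ {d : ℕ | ¬ Below {n | ω ∈ E n} d
          ((d : ℝ) ^ (1 + (1 / (m : ℝ) + ε))) ∧ d ∈ D} from ⟨h5, h6⟩) (fun _ => (1:ℝ))).symm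
      · rw [Set.indicator_of_notMem h6]
        exact (Set.indicator_of_notMem (fun h0 : d ∈ {d : ℕ | ¬ Below {n | ω ∈ E n} d
          ((d : ℝ) ^ (1 + (1 / (m : ℝ) + ε))) ∧ d ∈ D} => h6 h0.2) (fun _ => (1:ℝ))).symm
    · rw [Set.indicator_of_notMem h5]
      exact (Set.indicator_of_notMem (fun h0 : d ∈ {d : ℕ | ¬ Below {n | ω ∈ E n} d
          ((d : ℝ) ^ (1 + (1 / (m : ℝ) + ε))) ∧ d ∈ D} => h5 h0.1) (fun _ => (1:ℝ))).symm
  filter_upwards [eventually_not_of_summable h4] with d hd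
  intro hdD
  by_contra hcon
  have h7 : ¬ Below {n | ω ∈ E n} d ((d : ℝ) ^ (1 + (1 / (m : ℝ) + ε))) := by
    intro h8
    apply hcon
    refine h8.mono (le_of_eq ?_)
    congr 1
    ring
  exact hd ⟨h7, hdD⟩

/-- the number of exceptional moduli -/
theorem fixed_count {Ω : Type*} [MeasurableSpace Ω] (P : Measure Ω) [IsProbabilityMeasure P]
    {E : ℕ → Set Ω} {κ : ℕ → ℕ} (hE : ∀ n, MeasurableSet (E n))
    (hT : ∀ T : Finset ℕ, (∀ n ∈ T, 3 ≤ n ∧ T.card ≤ κ n) →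
      P (⋂ n ∈ T, E n) = ENNReal.ofReal (∏ n ∈ T, 1 / Real.log n))
    {m : ℕ} (hm : 1 ≤ m) (hκ : ∀ᶠ n : ℕ in atTop, 2 * m ≤ κ n) {t : ℝ} (ht : 0 ≤ t) (ht1 : t ≤ 1)
    {ε : ℝ} (hε : 0 < ε) :
    ∀ᵐ ω ∂P, ∀ᶠ x : ℕ in atTop,
      ({d : ℕ | d ≤ x ∧ ¬ Below {n | ω ∈ E n} d ((d : ℝ) ^ (1 + (1 + t) / (m : ℝ)))}.ncard : ℝ) ≤
        (x : ℝ) ^ (1 - t + ε) := by
  classical
  have hm0 : (0:ℝ) < m := by exact_mod_cast hm
  set s : ℝ := 1 - t + ε / 2 with hs
  have hs0 : 0 < s := by rw [hs]; linarith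
  have h1 := fixed_upper P hE hT hm hκ (θ := (1 + t) / (m : ℝ)) (by positivity)
    (u := fun d => (d : ℝ) ^ (-s)) (fun d => by positivity) (by
      have h2 : Summable fun d : ℕ => (1 / (ε / (4 * m))) ^ m * (d : ℝ) ^ (-1 - ε / 4) :=
        (Real.summable_nat_rpow.2 (by linarith)).mul_left _
      refine Summable.of_norm_bounded_eventually_nat h2 ?_
      filter_upwards [eventually_ge_atTop 1] with d hd
      have hd0 : (0:ℝ) < d := by exact_mod_cast hd
      have h3 : 0 ≤ Real.log (d : ℝ) := Real.log_nonneg (by exact_mod_cast hd)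
      rw [Real.norm_of_nonneg (by positivity)]
      refine (mul_le_mul_of_nonneg_left (term_le (θ := (1 + t) / (m : ℝ)) (ε := ε / (4 * m))
        (by positivity) hd) (by positivity)).trans (le_of_eq ?_)
      rw [mul_left_comm, ← Real.rpow_add hd0]
      congr 2
      rw [hs]
      field_simp
      ring)
  filter_upwards [h1] with ω hω
  set S : ℝ := ∑' d, {d : ℕ | ¬ Below {n | ω ∈ E n} d
    ((d : ℝ) ^ (1 + (1 + t) / (m : ℝ)))}.indicator (fun d => (d : ℝ) ^ (-s)) d with hS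
  have hlim : Tendsto (fun x : ℕ => (x : ℝ) ^ (ε / 2)) atTop atTop :=
    (tendsto_rpow_atTop (by positivity)).comp tendsto_natCast_atTop_atTop
  filter_upwards [hlim.eventually_ge_atTop S, eventually_ge_atTop 1] with x hx hx1
  have hx0 : (0:ℝ) < x := by exact_mod_cast hx1
  have h30 : {d : ℕ | d ≤ x ∧ ¬ Below {n | ω ∈ E n} d ((d : ℝ) ^ (1 + (1 + t) / (m : ℝ)))} =
      (({d ∈ Icc 1 x | ¬ Below {n | ω ∈ E n} d ((d : ℝ) ^ (1 + (1 + t) / (m : ℝ)))} :
        Finset ℕ) : Set ℕ) := by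
    ext d
    rw [coe_filter, Set.mem_ofPred_eq, Set.mem_ofPred_eq, mem_Icc]
    constructor
    · rintro ⟨h1, h2⟩
      refine ⟨⟨?_, h1⟩, h2⟩
      by_contra h0
      apply h2
      intro a ha1 ha2
      omega
    · rintro ⟨⟨_, h1⟩, h2⟩
      exact ⟨h1, h2⟩
  rw [h30, Set.ncard_coe_finset]
  have h3 : ∑ d ∈ {d ∈ Icc 1 x | ¬ Below {n | ω ∈ E n} d ((d : ℝ) ^ (1 + (1 + t) / (m : ℝ)))},
      {d : ℕ | ¬ Below {n | ω ∈ E n} d
        ((d : ℝ) ^ (1 + (1 + t) / (m : ℝ)))}.indicator (fun d => (d : ℝ) ^ (-s)) d ≤ S :=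
    hω.sum_le_tsum _ fun d _ => Set.indicator_nonneg (fun d _ => by positivity) d
  have h4 : (({d ∈ Icc 1 x | ¬ Below {n | ω ∈ E n} d
      ((d : ℝ) ^ (1 + (1 + t) / (m : ℝ)))}.card : ℕ) : ℝ) * (x : ℝ) ^ (-s) ≤ S := by
    refine le_trans ?_ h3
    rw [← nsmul_eq_mul]
    apply card_nsmul_le_sum
    intro d hd
    rw [mem_filter, mem_Icc] at hd
    rw [Set.indicator_of_mem (by exact hd.2)]
    have hd0 : (0:ℝ) < d := by exact_mod_cast hd.1.1
    apply Real.rpow_le_rpow_of_nonpos hd0 (by exact_mod_cast hd.1.2) (by linarith)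
  have h5 : (x : ℝ) ^ (1 - t + ε) = (x : ℝ) ^ s * (x : ℝ) ^ (ε / 2) := by
    rw [← Real.rpow_add hx0]
    congr 1
    rw [hs]
    ring
  rw [h5]
  have h6 : (x : ℝ) ^ (-s) * (x : ℝ) ^ s = 1 := by
    rw [← Real.rpow_add hx0]
    simp
  have h7 : 0 < (x : ℝ) ^ s := by positivity
  calc _ = (({d ∈ Icc 1 x | ¬ Below {n | ω ∈ E n} d
      ((d : ℝ) ^ (1 + (1 + t) / (m : ℝ)))}.card : ℕ) : ℝ) * (x : ℝ) ^ (-s) * (x : ℝ) ^ s := by
        rw [mul_assoc, h6, mul_one]
    _ ≤ S * (x : ℝ) ^ s := mul_le_mul_of_nonneg_right h4 h7.le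
    _ ≤ (x : ℝ) ^ (ε / 2) * (x : ℝ) ^ s := mul_le_mul_of_nonneg_right hx h7.le
    _ = _ := mul_comm _ _

/-- a model with an empty class below `c d ^ (1 + 1 / m)` for infinitely many moduli -/
theorem fixed_lower {κ : ℕ → ℕ} {m : ℕ} (hm : 1 ≤ m) (hκ : ∀ n, κ n ≤ 2 * m + 1) {D : Set ℕ}
    (hD : D.Infinite) :
    ∃ (Ω : Type) (_ : MeasurableSpace Ω) (P : Measure Ω) (_ : IsProbabilityMeasure P)
      (E : ℕ → Set Ω), (∀ n, MeasurableSet (E n)) ∧
      (∀ T : Finset ℕ, (∀ n ∈ T, 3 ≤ n ∧ T.card ≤ κ n) →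
        P (⋂ n ∈ T, E n) = ENNReal.ofReal (∏ n ∈ T, 1 / Real.log n)) ∧
      ∀ᵐ ω ∂P, ∃ᶠ d : ℕ in atTop, d ∈ D ∧
        ¬ Below {n | ω ∈ E n} d ((d : ℝ) ^ (1 + 1 / (m : ℝ)) / 2400) := by
  have hm0 : (0:ℝ) < m := by exact_mod_cast hm
  have hm1 : (1:ℝ) ≤ m := by exact_mod_cast hm
  have he := Real.exp_pos 1
  set J : ℕ → ℕ := fun d => ⌊(d : ℝ) ^ (1 / (m : ℝ)) / 2400⌋₊ with hJ
  have hX : Tendsto (fun d : ℕ => (d : ℝ) ^ (1 / (m : ℝ))) atTop atTop :=
    (tendsto_rpow_atTop (by positivity)).comp tendsto_natCast_atTop_atTop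
  have hlogs : ∀ᶠ d : ℕ in atTop, 16 * m * (1 / 2 * Real.log d) ≤ (d : ℝ) ^ (1 / (m : ℝ)) / 2400 := by
    have h1 : Tendsto (fun d : ℕ => Real.log d / (d : ℝ) ^ (1 / (m : ℝ))) atTop (𝓝 0) :=
      (isLittleO_log_rpow_atTop (by positivity)).tendsto_div_nhds_zero.comp
        tendsto_natCast_atTop_atTop
    filter_upwards [h1.eventually_lt_const (show (0:ℝ) < 1 / (2400 * (8 * m)) by positivity),
      eventually_ge_atTop 1] with d hd hd1
    have hd0 : (0:ℝ) < d := by exact_mod_cast hd1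
    rw [div_lt_iff₀ (by positivity)] at hd
    rw [le_div_iff₀ (by norm_num)]
    have h2 : 2400 * (8 * (m : ℝ)) * Real.log d ≤ 2400 * (8 * m) *
        (1 / (2400 * (8 * m)) * (d : ℝ) ^ (1 / (m : ℝ))) :=
      mul_le_mul_of_nonneg_left hd.le (by positivity)
    have h3 : 2400 * (8 * (m : ℝ)) * (1 / (2400 * (8 * m)) * (d : ℝ) ^ (1 / (m : ℝ))) =
        (d : ℝ) ^ (1 / (m : ℝ)) := by
      field_simp
    rw [h3] at h2
    linarith
  have hrootd : ∀ᶠ d : ℕ in atTop, 8 * Real.log d ≤ (d : ℝ) ^ (1 / 2 : ℝ) := by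
    have h1 : Tendsto (fun d : ℕ => Real.log d / (d : ℝ) ^ (1 / 2 : ℝ)) atTop (𝓝 0) :=
      (isLittleO_log_rpow_atTop (by positivity)).tendsto_div_nhds_zero.comp
        tendsto_natCast_atTop_atTop
    filter_upwards [h1.eventually_lt_const (show (0:ℝ) < 1 / 8 by positivity),
      eventually_ge_atTop 1] with d hd hd1
    have hd0 : (0:ℝ) < d := by exact_mod_cast hd1
    rw [div_lt_iff₀ (by positivity)] at hd
    linarith
  obtain ⟨Ω, mΩ, P, hP, E, hE, hT, hae⟩ := prog_model (κ := κ) (J := J) (K := fun _ => 2 * m + 1)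
    (δ := fun d => 1 / (16 * Real.exp 1) * (1 / 2 * Real.log d / (2 * ((J d : ℝ) + 1))) ^ m)
    (D := D)
    (by
      refine ((Nat.frequently_atTop_iff_infinite.2 hD).and_eventually
        ((eventually_ge_atTop 3).and ((hX.eventually_ge_atTop (2400 : ℝ)).and
        (hlogs.and (hrootd.and (tendsto_log_nat.eventually_ge_atTop (8 : ℝ))))))).mono ?_
      rintro d ⟨hdD, hd3, hX1, hlg, hrt, hl8⟩
      have hdR : (3:ℝ) ≤ d := by exact_mod_cast hd3
      have hd0 : (0:ℝ) < d := by linarith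
      have hlog : 0 < Real.log (d : ℝ) := by linarith
      have hfl : (J d : ℝ) ≤ (d : ℝ) ^ (1 / (m : ℝ)) / 2400 := Nat.floor_le (by positivity)
      have hfl2 : (d : ℝ) ^ (1 / (m : ℝ)) / 2400 < (J d : ℝ) + 1 := Nat.lt_floor_add_one _
      have htot : (d : ℝ) / (5 / 2 * Real.log d) ≤ d.totient := by
        refine le_trans ?_ (totient_ge (n := d) (by omega))
        apply div_le_div_of_nonneg_left hd0.le (by positivity)
        have h4 : (Nat.log 2 d : ℝ) ≤ Real.logb 2 d := Real.natLog_le_logb d 2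
        have h5 : Real.logb 2 d = Real.log d / Real.log 2 := rfl
        have h7 : (0.6931471803:ℝ) < Real.log 2 := Real.log_two_gt_d9
        have h8 : Real.log d / Real.log 2 ≤ 2 * Real.log d := by
          rw [div_le_iff₀ (by linarith)]
          nlinarith
        linarith
      have hroot : (d : ℝ) ^ (1 / 2 : ℝ) * (d : ℝ) ^ (1 / 2 : ℝ) = d := by
        rw [← Real.rpow_add hd0]
        norm_num
      have hroot1 : (1:ℝ) ≤ (d : ℝ) ^ (1 / 2 : ℝ) := Real.one_le_rpow (by linarith) (by norm_num)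
      have htot2 : 2 * (d : ℝ) ^ (1 / 2 : ℝ) ≤ d.totient := by
        refine le_trans ?_ htot
        rw [le_div_iff₀ (by positivity)]
        have h9 : 2 * (d : ℝ) ^ (1 / 2 : ℝ) * (5 / 2 * Real.log d) ≤
            (d : ℝ) ^ (1 / 2 : ℝ) * (d : ℝ) ^ (1 / 2 : ℝ) := by
          have h10 := mul_le_mul_of_nonneg_left hrt (show (0:ℝ) ≤ (d : ℝ) ^ (1 / 2 : ℝ) by positivity)
          nlinarith
        rw [hroot] at h9
        exact h9
      refine ⟨hdD, fun n _ => hκ n, by positivity, ?_, ?_⟩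
      · have h11 : (d : ℝ) / (6 * Real.log d) ≤ (d.totient : ℝ) / 2 - 1 := by
          have h12 : (d : ℝ) / (5 / 2 * Real.log d) / 2 - 1 ≤ (d.totient : ℝ) / 2 - 1 := by linarith
          refine le_trans ?_ h12
          have h13 : 30 * Real.log d ≤ d := by
            have h14 : 8 * Real.log d * (8 * Real.log d) ≤ d :=
              (mul_le_mul hrt hrt (by positivity) (by positivity)).trans hroot.le
            nlinarith
          have h15 : (d : ℝ) / (5 / 2 * Real.log d) / 2 = (6 / 5) * ((d : ℝ) / (6 * Real.log d)) := by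
            field_simp
          rw [h15]
          have h16 : 5 ≤ (d : ℝ) / (6 * Real.log d) := by
            rw [le_div_iff₀ (by positivity)]
            linarith
          linarith
        have h17 : (J d : ℝ) + 1 ≤ (d : ℝ) ^ (1 / (m : ℝ)) / 1200 := by
          have : (1:ℝ) ≤ (d : ℝ) ^ (1 / (m : ℝ)) / 2400 := by
            rw [le_div_iff₀ (by norm_num)]
            linarith
          linarith
        have h18 : 300 * Real.log d / (d : ℝ) ^ (1 / (m : ℝ)) ≤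
            1 / 2 * Real.log d / (2 * ((J d : ℝ) + 1)) := by
          rw [div_le_div_iff₀ (by positivity) (by positivity)]
          have := mul_le_mul_of_nonneg_left h17 hlog.le
          nlinarith
        have h19 := pow_le_pow_left₀ (by positivity) h18 m
        have h20 : (300 * Real.log d / (d : ℝ) ^ (1 / (m : ℝ))) ^ m =
            300 ^ m * Real.log d ^ m / d := by
          rw [div_pow, mul_pow, ← Real.rpow_natCast ((d : ℝ) ^ (1 / (m : ℝ))) m,
            ← Real.rpow_mul hd0.le, one_div_mul_cancel hm0.ne', Real.rpow_one]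
        rw [h20] at h19
        have h21 : (300:ℝ) * Real.log d ≤ 300 ^ m * Real.log d ^ m := by
          rw [← mul_pow]
          exact le_self_pow₀ (by nlinarith) (by omega)
        have h22 : 300 * Real.log d / d ≤ (1 / 2 * Real.log d / (2 * ((J d : ℝ) + 1))) ^ m :=
          (div_le_div_of_nonneg_right h21 hd0.le).trans h19
        have h23 : Real.exp 1 < 2.7182818286 := Real.exp_one_lt_d9
        have h24 : 6 / 2 * (1 / (16 * Real.exp 1)) * 1 ≤ 1 := by
          rw [mul_one]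
          have : 1 / (16 * Real.exp 1) ≤ 1 / 16 := by
            apply one_div_le_one_div_of_le (by norm_num)
            have : (1:ℝ) ≤ Real.exp 1 := Real.one_le_exp (by norm_num)
            linarith
          linarith
        calc (1:ℝ) ≤ (d : ℝ) / (6 * Real.log d) * (1 / (16 * Real.exp 1) *
            (300 * Real.log d / d)) := by
              have h25 : (d : ℝ) / (6 * Real.log d) * (1 / (16 * Real.exp 1) *
                (300 * Real.log d / d)) = 50 / (16 * Real.exp 1) := by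
                field_simp
                norm_num
              rw [h25, le_div_iff₀ (by positivity)]
              linarith
          _ ≤ _ := by
              apply mul_le_mul h11 _ (by positivity) (le_trans (by positivity) h11)
              exact mul_le_mul_of_nonneg_left h22 (by positivity)
      · intro a ha1 ha2
        have hcard : (cls0 (J d) d a).card = J d + 1 := card_cls0 (by omega)
        have h30 := mass_fixed (I := cls0 (J d) d a) (m := m) (L := 1 / 2 * Real.log d) hm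
          (by linarith) (by rw [hcard]; push_cast; linarith) (by
            intro y hy
            obtain ⟨j, hj, rfl⟩ := mem_cls0.1 hy
            have h31 : (d : ℝ) ^ (1 / 2 : ℝ) ≤ ((a + j * d : ℕ) : ℝ) := by
              have h32 : (d.totient : ℝ) ≤ 2 * a := by exact_mod_cast ha1
              push_cast
              have : (0:ℝ) ≤ (j : ℝ) * d := by positivity
              linarith
            have h33 : (3:ℝ) ≤ (d : ℝ) ^ (1 / 2 : ℝ) := by linarith
            constructor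
            · exact_mod_cast h33.trans h31
            · have h34 := Real.log_le_log (by positivity) h31
              rw [Real.log_rpow hd0] at h34
              exact h34)
        rw [hcard] at h30
        push_cast at h30
        exact h30)
  refine ⟨Ω, mΩ, P, hP, E, hE, hT, ?_⟩
  filter_upwards [hae] with ω hω
  refine hω.mono ?_
  rintro d ⟨hdD, a, ha1, ha2, ha3, ha⟩
  refine ⟨hdD, fun hB => ?_⟩
  obtain ⟨j, hj1, hj2⟩ := hB a ha1 ha2 ha3
  have hjJ : J d < j := by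
    by_contra hcon
    exact ha j (by omega) hj1
  have hd0 : (0:ℝ) < d := by exact_mod_cast (by omega : 0 < d)
  have h1 : (d : ℝ) ^ (1 / (m : ℝ)) / 2400 < j := by
    have h2 : (d : ℝ) ^ (1 / (m : ℝ)) / 2400 < (J d : ℝ) + 1 := Nat.lt_floor_add_one _
    have h3 : (J d : ℝ) + 1 ≤ j := by exact_mod_cast hjJ
    linarith
  rw [Real.rpow_add hd0, Real.rpow_one] at hj2
  push_cast at hj2
  have h4 := mul_lt_mul_of_pos_right h1 hd0
  have h5 : (0:ℝ) ≤ a := Nat.cast_nonneg _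
  have h6 : (d : ℝ) * (d : ℝ) ^ (1 / (m : ℝ)) / 2400 = (d : ℝ) ^ (1 / (m : ℝ)) / 2400 * d := by ring
  linarith

end Q167.PR
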