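import Pool.Agent.Q167.PR.C

/-! # Models with empty residue classes: sequences of conditions -/

set_option autoImplicit false

namespace Q167.PR

open Finset MeasureTheory Filter Topology Q198.CI Q167.LI Q167.AN Q167.SQ

/-- from conditions of level `i`, each satisfied infinitely often, to one model -/
theorem prog_model_seq {κ : ℕ → ℕ} {J : ℕ → ℕ → ℕ} {D : Set ℕ}
    (h : ∀ i : ℕ, ∃ᶠ d : ℕ in atTop, d ∈ D ∧ ∃ (K : ℕ) (δ : ℝ),
      (∀ n ≤ (J i d + 1) * d, κ n ≤ K) ∧ 0 ≤ δ ∧ 1 ≤ ((d.totient : ℝ) / 2 - 1) * δ ∧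
      ∀ a, d.totient ≤ 2 * a → a < d →
        ∃ w : Finset ℕ → ℝ, IsLaw (cls0 (J i d) d a) K cp w ∧ δ ≤ w ∅) :
    ∃ (Ω : Type) (_ : MeasurableSpace Ω) (P : Measure Ω) (_ : IsProbabilityMeasure P)
      (E : ℕ → Set Ω), (∀ n, MeasurableSet (E n)) ∧
      (∀ T : Finset ℕ, (∀ n ∈ T, 3 ≤ n ∧ T.card ≤ κ n) →
        P (⋂ n ∈ T, E n) = ENNReal.ofReal (∏ n ∈ T, 1 / Real.log n)) ∧
      ∀ᵐ ω ∂P, ∀ i₀ : ℕ, ∃ᶠ d : ℕ in atTop, d ∈ D ∧ ∃ i, i₀ ≤ i ∧
        ∃ a, 1 ≤ a ∧ a < d ∧ Nat.Coprime a d ∧ ∀ j ≤ J i d, ω ∉ E (a + j * d) := by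
  classical
  obtain ⟨φ, hφ, hφ2⟩ := extraction_forall_of_frequently h
  choose hφD K δ hK hδ0 hδ1 hlaw using hφ2
  have hinv : ∀ i, Function.invFun φ (φ i) = i := fun i =>
    Function.leftInverse_invFun hφ.injective i
  obtain ⟨Ω, mΩ, P, hP, E, hE, hT, hae⟩ := prog_model (κ := κ)
    (J := fun d => J (Function.invFun φ d) d) (K := fun d => K (Function.invFun φ d))
    (δ := fun d => δ (Function.invFun φ d)) (D := Set.range φ)
    (by
      rw [frequently_atTop]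
      intro n
      refine ⟨φ n, hφ.id_le n, ⟨n, rfl⟩, ?_⟩
      rw [hinv]
      exact ⟨hK n, hδ0 n, hδ1 n, hlaw n⟩)
  refine ⟨Ω, mΩ, P, hP, E, hE, hT, ?_⟩
  filter_upwards [hae] with ω hω
  intro i₀
  refine (hω.and_eventually (eventually_ge_atTop (φ i₀))).mono ?_
  rintro d ⟨⟨⟨i, rfl⟩, a, h1, h2, h3, h4⟩, h5⟩
  rw [hinv] at h4
  exact ⟨hφD i, i, hφ.le_iff_le.1 h5, a, h1, h2, h3, h4⟩

/-- the function `log n / log log n` -/
noncomputable def gg (n : ℕ) : ℝ := Real.log n / Real.log (Real.log n)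

lemma tendsto_ll : Tendsto (fun n : ℕ => Real.log (Real.log (n : ℝ))) atTop atTop :=
  Real.tendsto_log_atTop.comp tendsto_log_nat

lemma log_small_real {η : ℝ} (hη : 0 < η) : ∀ᶠ x : ℝ in atTop, Real.log x ≤ η * x := by
  have h := Real.isLittleO_log_id_atTop.bound hη
  filter_upwards [h, eventually_ge_atTop (1:ℝ)] with x hx hx1
  rw [Real.norm_of_nonneg (Real.log_nonneg hx1)] at hx
  simp only [id] at hx
  rwa [Real.norm_of_nonneg (by linarith)] at hx

/-- `log log d` is small compared with `log d` -/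
lemma ll_small {η : ℝ} (hη : 0 < η) :
    ∀ᶠ d : ℕ in atTop, Real.log (Real.log (d : ℝ)) ≤ η * Real.log d :=
  tendsto_log_nat.eventually (log_small_real hη)

/-- `log log log d` is small compared with `log log d` -/
lemma lll_small {η : ℝ} (hη : 0 < η) :
    ∀ᶠ d : ℕ in atTop, Real.log (Real.log (Real.log (d : ℝ))) ≤ η * Real.log (Real.log d) :=
  tendsto_ll.eventually (log_small_real hη)

lemma gg_mono_real {s t : ℝ} (hs : Real.exp 1 ≤ s) (hst : s ≤ t) :
    s / Real.log s ≤ t / Real.log t := by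
  have h1 := Real.log_div_self_antitoneOn hs (hs.trans hst) hst
  have hs0 : 0 < s := (Real.exp_pos 1).trans_le hs
  have hls : 0 < Real.log s := by
    have := Real.log_le_log (Real.exp_pos 1) hs
    rw [Real.log_exp] at this
    linarith
  have hlt : 0 < Real.log t := hls.trans_le (Real.log_le_log hs0 hst)
  simp only at h1
  have h2 : 0 < Real.log t / t := div_pos hlt (hs0.trans_le hst)
  have h3 := one_div_le_one_div_of_le h2 h1
  rwa [one_div_div, one_div_div] at h3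

end Q167.PR
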