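import Pool.Agent.Q167.PR.D

/-! # Polylogarithmic bounds for the least elements of residue classes: all models -/

set_option autoImplicit false

namespace Q167.PR

open Finset MeasureTheory Filter Topology Q198.CI Q167.LI Q167.AN Q167.SQ

/-- the classes without small elements, polylogarithmic range -/
theorem poly_upper {Ω : Type*} [MeasurableSpace Ω] (P : Measure Ω) [IsProbabilityMeasure P]
    {E : ℕ → Set Ω} {κ : ℕ → ℕ} (hE : ∀ n, MeasurableSet (E n))
    (hT : ∀ T : Finset ℕ, (∀ n ∈ T, 3 ≤ n ∧ T.card ≤ κ n) →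
      P (⋂ n ∈ T, E n) = ENNReal.ofReal (∏ n ∈ T, 1 / Real.log n))
    {c A ε : ℝ} (hc : 0 < c) (hA : 2 < A) (hε : 0 < ε) (hκ : ∀ᶠ n : ℕ in atTop, c * gg n ≤ κ n)
    {u : ℕ → ℝ} (hu : ∀ d, 0 ≤ u d)
    (hs : Summable fun d : ℕ => u d * (d : ℝ) ^ (1 - c / 2 * (A - 2) + ε)) :
    ∀ᵐ ω ∂P, Summable fun d => {d : ℕ | ¬ Below {n | ω ∈ E n} d
      ((d : ℝ) * Real.log d ^ A)}.indicator u d := by
  have he := Real.exp_pos 1
  have he1 : 2.7182818283 < Real.exp 1 := Real.exp_one_gt_d9
  obtain ⟨n₀, hn₀⟩ := eventually_atTop.1 hκ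
  have h1 := prog_upper P hE hT (J := fun d => ⌊Real.log (d : ℝ) ^ A⌋₊ - 1)
    (m := fun d => ⌊c / 2 * gg d⌋₊) (u := u)
    (b := fun d => (d : ℝ) ^ (1 - c / 2 * (A - 2) + ε)) (D := Set.univ) hu
    (by
      filter_upwards [tendsto_log_nat.eventually_ge_atTop 8, tendsto_log_nat.eventually_ge_atTop
        (Real.exp 1), tendsto_ll.eventually_ge_atTop 1, tendsto_ll.eventually_ge_atTop (c / 2),
        tendsto_ll.eventually_ge_atTop (2 * c / ε), tendsto_ll.eventually_ge_atTop (1 / (A - 2)),
        ll_small (η := 1 / A) (by positivity), ll_small (η := c / 4) (by positivity),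
        ll_small (η := ε / (4 * (A - 2))) (by apply div_pos hε; linarith),
        ll_small (η := ε / 4) (by positivity),
        tendsto_log_nat.eventually_ge_atTop (4 / ε), eventually_ge_atTop n₀, eventually_ge_atTop 3]
        with d hl8 hle hll1 hllc hllε hllA hsA hsc hsε hsε2 hlε hdn hd3
      intro _
      set ℓ := Real.log (d : ℝ) with hℓ
      set ℓ₂ := Real.log ℓ with hℓ₂
      have hdR : (3:ℝ) ≤ d := by exact_mod_cast hd3
      have hd0 : (0:ℝ) < d := by linarith
      have hℓ0 : 0 < ℓ := by linarith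
      have hℓ20 : 0 < ℓ₂ := by linarith
      have hA2 : 0 < A - 2 := by linarith
      have hgg : gg d = ℓ / ℓ₂ := rfl
      have hgle : c / 2 * gg d ≤ ℓ := by
        rw [hgg, ← mul_div_assoc, div_le_iff₀ hℓ20]
        nlinarith
      have hg1 : 2 ≤ c / 2 * gg d := by
        rw [hgg, ← mul_div_assoc, le_div_iff₀ hℓ20]
        nlinarith
      set M : ℕ := ⌊c / 2 * gg d⌋₊ with hM
      have hM1 : (M : ℝ) ≤ c / 2 * gg d := Nat.floor_le (by linarith)
      have hM2 : c / 2 * gg d - 1 < M := Nat.sub_one_lt_floor _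
      set X : ℝ := ℓ ^ A with hX
      have hXℓ : ℓ ^ 2 ≤ X := by
        rw [hX, ← Real.rpow_natCast]
        apply Real.rpow_le_rpow_of_exponent_le (by linarith)
        push_cast
        linarith
      have hfl : (⌊X⌋₊ : ℝ) ≤ X := Nat.floor_le (by positivity)
      have hfl2 : X - 1 < ⌊X⌋₊ := Nat.sub_one_lt_floor _
      have hXbig : 2 * ℓ + 2 ≤ X := by nlinarith
      have hfl1 : 1 ≤ ⌊X⌋₊ := Nat.le_floor (by push_cast; linarith)
      have hcast : ((⌊X⌋₊ - 1 : ℕ) : ℝ) = (⌊X⌋₊ : ℝ) - 1 := by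
        rw [Nat.cast_sub hfl1, Nat.cast_one]
      have hM10 : 1 ≤ M := Nat.le_floor (by push_cast; linarith)
      refine ⟨hM10, ?_, fun y hy => ?_, ?_⟩
      · have h2 : ((M + 1 : ℕ) : ℝ) ≤ ⌊X⌋₊ := by push_cast; linarith
        have h3 : M + 1 ≤ ⌊X⌋₊ := by exact_mod_cast h2
        omega
      · have h3 := hn₀ y (by omega)
        have h4 : gg d ≤ gg y := by
          apply gg_mono_real hle
          exact Real.log_le_log hd0 (by exact_mod_cast hy.le)
        have h5 : ((2 * M : ℕ) : ℝ) ≤ κ y := by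
          push_cast
          nlinarith
        exact_mod_cast h5
      · rw [hcast]
        have hM0 : (1:ℝ) ≤ M := by exact_mod_cast hM10
        have hMℓ : (M : ℝ) ≤ ℓ := hM1.trans hgle
        have hfl1R : (1:ℝ) ≤ ⌊X⌋₊ := by exact_mod_cast hfl1
        have h4 : Real.log ((((⌊X⌋₊ : ℝ) - 1) + 1) * d) ≤ 2 * ℓ := by
          have h5 : (((⌊X⌋₊ : ℝ) - 1) + 1) * d ≤ X * d := by nlinarith
          refine (Real.log_le_log (by nlinarith) h5).trans ?_
          rw [Real.log_mul (by positivity) hd0.ne', hX, Real.log_rpow hℓ0]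
          have h6 : A * ℓ₂ ≤ ℓ := by
            have := mul_le_mul_of_nonneg_left hsA (show 0 ≤ A by linarith)
            rwa [← mul_assoc, mul_one_div_cancel (by linarith), one_mul] at this
          linarith
        have h7 : X / 2 ≤ ((⌊X⌋₊ : ℝ) - 1) - M + 1 := by linarith
        have h40 : 0 ≤ Real.log ((((⌊X⌋₊ : ℝ) - 1) + 1) * d) := by
          apply Real.log_nonneg
          nlinarith
        have h9 : 0 ≤ (M * Real.log ((((⌊X⌋₊ : ℝ) - 1) + 1) * d)) /
            (Real.exp 1 * (((⌊X⌋₊ : ℝ) - 1) - M + 1)) := by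
          apply div_nonneg (by positivity)
          apply mul_nonneg he.le
          have : 0 < X := by positivity
          linarith
        have h8 : (M * Real.log ((((⌊X⌋₊ : ℝ) - 1) + 1) * d)) /
            (Real.exp 1 * (((⌊X⌋₊ : ℝ) - 1) - M + 1)) ≤ Real.exp (Real.log 2 - (A - 2) * ℓ₂) := by
          have h81 : Real.exp (Real.log 2 - (A - 2) * ℓ₂) = 2 * ℓ ^ 2 / X := by
            rw [Real.exp_sub, Real.exp_log (by norm_num), hX, Real.rpow_def_of_pos hℓ0]
            have : ℓ ^ 2 = Real.exp (2 * ℓ₂) := by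
              rw [two_mul, Real.exp_add, hℓ₂, Real.exp_log hℓ0]
              ring
            rw [this, ← hℓ₂, div_eq_div_iff (by positivity) (by positivity), mul_assoc,
              ← Real.exp_add]
            congr 2
            ring
          rw [h81]
          calc _ ≤ (ℓ * (2 * ℓ)) / (Real.exp 1 * (X / 2)) := by
                apply div_le_div₀ (by positivity) _ (by positivity) _
                · exact mul_le_mul hMℓ h4 h40 hℓ0.le
                · exact mul_le_mul_of_nonneg_left h7 he.le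
            _ ≤ _ := by
                rw [div_le_div_iff₀ (by positivity) (by positivity)]
                have : 0 < X * ℓ ^ 2 := by positivity
                nlinarith
        have h10 := pow_le_pow_left₀ h9 h8 M
        rw [← Real.exp_nat_mul] at h10
        have h11 : (M : ℝ) * (Real.log 2 - (A - 2) * ℓ₂) ≤ -(c / 2 * (A - 2)) * ℓ + ε / 2 * ℓ := by
          have hl2 : Real.log 2 < 0.6931471808 := Real.log_two_lt_d9
          have hs0 : Real.log 2 - (A - 2) * ℓ₂ ≤ 0 := by
            have : 1 ≤ (A - 2) * ℓ₂ := by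
              have := mul_le_mul_of_nonneg_left hllA hA2.le
              rwa [mul_one_div_cancel hA2.ne'] at this
            linarith
          have h12 : (M : ℝ) * (Real.log 2 - (A - 2) * ℓ₂) ≤
              (c / 2 * gg d - 1) * (Real.log 2 - (A - 2) * ℓ₂) :=
            mul_le_mul_of_nonpos_right hM2.le hs0
          refine h12.trans ?_
          have h13 : (c / 2 * gg d - 1) * (Real.log 2 - (A - 2) * ℓ₂) =
              c / 2 * (ℓ / ℓ₂) * Real.log 2 - c / 2 * (A - 2) * ℓ - Real.log 2 +
                (A - 2) * ℓ₂ := by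
            rw [hgg]
            field_simp
            ring
          rw [h13]
          have h14 : c / 2 * (ℓ / ℓ₂) * Real.log 2 ≤ ε / 4 * ℓ := by
            have h15 : c / 2 * (ℓ / ℓ₂) ≤ ε / 4 * ℓ := by
              rw [← mul_div_assoc, div_le_iff₀ hℓ20]
              have h16 : 2 * c ≤ ε * ℓ₂ := by
                rw [div_le_iff₀ hε] at hllε
                linarith
              nlinarith
            have h17 : 0 ≤ c / 2 * (ℓ / ℓ₂) := by positivity
            nlinarith
          have h18 : (A - 2) * ℓ₂ ≤ ε / 4 * ℓ := by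
            have := mul_le_mul_of_nonneg_left hsε hA2.le
            have h19 : (A - 2) * (ε / (4 * (A - 2)) * ℓ) = ε / 4 * ℓ := by
              field_simp
            rwa [h19] at this
          have h20 : 0 < Real.log 2 := Real.log_pos (by norm_num)
          linarith
        have h21 : Real.exp 1 * M ≤ Real.exp (ε / 2 * ℓ) := by
          have h22 : Real.exp 1 * M ≤ Real.exp (1 + ℓ₂) := by
            rw [Real.exp_add, hℓ₂, Real.exp_log hℓ0]
            exact mul_le_mul_of_nonneg_left hMℓ he.le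
          refine h22.trans (Real.exp_le_exp.2 ?_)
          have h23 : 4 ≤ ε * ℓ := by
            rw [div_le_iff₀ hε] at hlε
            linarith
          linarith
        calc (d : ℝ) * (Real.exp 1 * M * ((M * Real.log ((((⌊X⌋₊ : ℝ) - 1) + 1) * d)) /
            (Real.exp 1 * (((⌊X⌋₊ : ℝ) - 1) - M + 1))) ^ M) ≤
            Real.exp ℓ * (Real.exp (ε / 2 * ℓ) *
              Real.exp (-(c / 2 * (A - 2)) * ℓ + ε / 2 * ℓ)) := by
              rw [hℓ, Real.exp_log hd0, ← hℓ]
              apply mul_le_mul_of_nonneg_left _ hd0.le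
              apply mul_le_mul h21 _ (pow_nonneg h9 _) (Real.exp_pos _).le
              exact h10.trans (Real.exp_le_exp.2 h11)
          _ = _ := by
              rw [← Real.exp_add, ← Real.exp_add, Real.rpow_def_of_pos hd0, ← hℓ]
              congr 1
              ring)
    hs
  filter_upwards [h1] with ω hω
  refine Summable.of_nonneg_of_le (fun d => Set.indicator_nonneg (fun d _ => hu d) d)
    (fun d => ?_) hω
  apply Set.indicator_le_indicator_of_subset _ (fun d => hu d)
  intro d hd
  refine ⟨Set.mem_univ _, ?_⟩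
  unfold Below at hd
  simp only [Set.mem_ofPred_eq, not_forall, not_exists, not_and, not_lt] at hd
  obtain ⟨a, ha1, ha2, _, ha4⟩ := hd
  refine ⟨a, ha1, ha2, fun j hj1 hj2 hjE => ?_⟩
  have h2 := ha4 j hjE
  have hd1 : 1 < d := by omega
  have hd0 : (0:ℝ) < d := by exact_mod_cast (by omega : 0 < d)
  have h4 : a + j * d < ((⌊Real.log (d : ℝ) ^ A⌋₊ - 1) + 1) * d := by
    have : j * d ≤ (⌊Real.log (d : ℝ) ^ A⌋₊ - 1) * d := Nat.mul_le_mul_right _ hj2
    rw [add_mul, one_mul]
    omega
  have h6 : (⌊Real.log (d : ℝ) ^ A⌋₊ - 1) + 1 = ⌊Real.log (d : ℝ) ^ A⌋₊ := by omega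
  rw [h6] at h4
  have h3 : ((a + j * d : ℕ) : ℝ) < (⌊Real.log (d : ℝ) ^ A⌋₊ * d : ℕ) := by exact_mod_cast h4
  push_cast at h3
  have hlog : 0 ≤ Real.log (d : ℝ) := Real.log_nonneg (by exact_mod_cast hd1.le)
  have h7 : (⌊Real.log (d : ℝ) ^ A⌋₊ : ℝ) ≤ Real.log (d : ℝ) ^ A := Nat.floor_le (by positivity)
  push_cast at h2
  nlinarith

end Q167.PR
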