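import Pool.Agent.Q167.PR.E

/-! # Polylogarithmic bounds for the least elements of residue classes -/

set_option autoImplicit false

namespace Q167.PR

open Finset MeasureTheory Filter Topology Q198.CI Q167.LI Q167.AN Q167.SQ

/-- all moduli -/
theorem poly_all {Ω : Type*} [MeasurableSpace Ω] (P : Measure Ω) [IsProbabilityMeasure P]
    {E : ℕ → Set Ω} {κ : ℕ → ℕ} (hE : ∀ n, MeasurableSet (E n))
    (hT : ∀ T : Finset ℕ, (∀ n ∈ T, 3 ≤ n ∧ T.card ≤ κ n) →
      P (⋂ n ∈ T, E n) = ENNReal.ofReal (∏ n ∈ T, 1 / Real.log n))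
    {c A : ℝ} (hc : 0 < c) (hA : 2 + 4 / c < A) (hκ : ∀ᶠ n : ℕ in atTop, c * gg n ≤ κ n) :
    ∀ᵐ ω ∂P, ∀ᶠ d : ℕ in atTop, Below {n | ω ∈ E n} d ((d : ℝ) * Real.log d ^ A) := by
  have h4 : 0 < 4 / c := by positivity
  have h5 : 2 < c / 2 * (A - 2) := by
    have h6 : c / 2 * (4 / c) < c / 2 * (A - 2) :=
      mul_lt_mul_of_pos_left (by linarith) (by positivity)
    have h7 : c / 2 * (4 / c) = 2 := by
      field_simp
      norm_num
    linarith
  have h1 := poly_upper P hE hT (c := c) (A := A) (ε := (c / 2 * (A - 2) - 2) / 2) hc (by linarith)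
    (by linarith) hκ (u := fun _ => 1) (fun _ => zero_le_one) (by
      simp only [one_mul]
      exact Real.summable_nat_rpow.2 (by linarith))
  filter_upwards [h1] with ω hω
  filter_upwards [eventually_not_of_summable hω] with d hd
  exact not_not.1 hd

/-- sparse sets of moduli -/
theorem poly_sparse {Ω : Type*} [MeasurableSpace Ω] (P : Measure Ω) [IsProbabilityMeasure P]
    {E : ℕ → Set Ω} {κ : ℕ → ℕ} (hE : ∀ n, MeasurableSet (E n))
    (hT : ∀ T : Finset ℕ, (∀ n ∈ T, 3 ≤ n ∧ T.card ≤ κ n) →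
      P (⋂ n ∈ T, E n) = ENNReal.ofReal (∏ n ∈ T, 1 / Real.log n))
    {c A : ℝ} (hc : 0 < c) (hA : 2 + 2 / c < A) (hκ : ∀ᶠ n : ℕ in atTop, c * gg n ≤ κ n)
    {D : Set ℕ}
    (hD : ∀ ε : ℝ, 0 < ε → Summable fun d : ℕ => D.indicator (fun d => (d : ℝ) ^ (-ε)) d) :
    ∀ᵐ ω ∂P, ∀ᶠ d : ℕ in atTop, d ∈ D →
      Below {n | ω ∈ E n} d ((d : ℝ) * Real.log d ^ A) := by
  have h4 : 0 < 2 / c := by positivity
  have h5 : 1 < c / 2 * (A - 2) := by
    have h6 : c / 2 * (2 / c) < c / 2 * (A - 2) :=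
      mul_lt_mul_of_pos_left (by linarith) (by positivity)
    have h7 : c / 2 * (2 / c) = 1 := by
      field_simp
    linarith
  have h1 := poly_upper P hE hT (c := c) (A := A) (ε := (c / 2 * (A - 2) - 1) / 2) hc (by linarith)
    (by linarith) hκ (u := D.indicator fun _ => 1)
    (fun d => Set.indicator_nonneg (fun _ _ => zero_le_one) d) (by
      refine (hD ((c / 2 * (A - 2) - 1) / 2) (by linarith)).congr fun d => ?_
      by_cases hdD : d ∈ D
      · rw [Set.indicator_of_mem hdD, Set.indicator_of_mem hdD, one_mul]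
        congr 1
        ring
      · rw [Set.indicator_of_notMem hdD, Set.indicator_of_notMem hdD, zero_mul])
  filter_upwards [h1] with ω hω
  set S : Set ℕ := {d : ℕ | ¬ Below {n | ω ∈ E n} d ((d : ℝ) * Real.log d ^ A)} with hS
  have h8 : Summable fun d => (S ∩ D).indicator (fun _ => (1:ℝ)) d := by
    refine hω.congr fun d => ?_
    by_cases h9 : d ∈ S
    · rw [Set.indicator_of_mem h9]
      by_cases h6 : d ∈ D
      · rw [Set.indicator_of_mem h6, Set.indicator_of_mem (Set.mem_inter h9 h6)]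
      · rw [Set.indicator_of_notMem h6, Set.indicator_of_notMem fun h0 : d ∈ S ∩ D => h6 h0.2]
    · rw [Set.indicator_of_notMem h9, Set.indicator_of_notMem fun h0 : d ∈ S ∩ D => h9 h0.1]
  filter_upwards [eventually_not_of_summable h8] with d hd
  intro hdD
  by_contra hcon
  exact hd ⟨hcon, hdD⟩

/-- from a convergent series to a bound for the number of terms -/
lemma count_of_summable {A : Set ℕ} {f : ℕ → ℝ} {s : ℝ} (hs0 : 0 < s)
    (hω : Summable fun d => {d : ℕ | ¬ Below A d (f d)}.indicator (fun d : ℕ => (d : ℝ) ^ (-s)) d)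
    {ε : ℝ} (hε : 0 < ε) :
    ∀ᶠ x : ℕ in atTop, ({d : ℕ | d ≤ x ∧ ¬ Below A d (f d)}.ncard : ℝ) ≤ (x : ℝ) ^ (s + ε) := by
  classical
  set S : ℝ := ∑' d, {d : ℕ | ¬ Below A d (f d)}.indicator (fun d : ℕ => (d : ℝ) ^ (-s)) d with hS
  have hlim : Tendsto (fun x : ℕ => (x : ℝ) ^ ε) atTop atTop :=
    (tendsto_rpow_atTop hε).comp tendsto_natCast_atTop_atTop
  filter_upwards [hlim.eventually_ge_atTop S, eventually_ge_atTop 1] with x hx hx1
  have hx0 : (0:ℝ) < x := by exact_mod_cast hx1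
  have h30 : {d : ℕ | d ≤ x ∧ ¬ Below A d (f d)} =
      (({d ∈ Icc 1 x | ¬ Below A d (f d)} : Finset ℕ) : Set ℕ) := by
    ext d
    rw [coe_filter, Set.mem_ofPred_eq, Set.mem_ofPred_eq, mem_Icc]
    constructor
    · rintro ⟨h1, h2⟩
      refine ⟨⟨?_, h1⟩, h2⟩
      by_contra h0
      apply h2
      intro a ha1 ha2
      omega
    · rintro ⟨⟨_, h1⟩, h2⟩
      exact ⟨h1, h2⟩
  rw [h30, Set.ncard_coe_finset]
  have h3 : ∑ d ∈ {d ∈ Icc 1 x | ¬ Below A d (f d)},
      {d : ℕ | ¬ Below A d (f d)}.indicator (fun d : ℕ => (d : ℝ) ^ (-s)) d ≤ S :=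
    hω.sum_le_tsum _ fun d _ => Set.indicator_nonneg (fun d _ => by positivity) d
  have h4 : (({d ∈ Icc 1 x | ¬ Below A d (f d)}.card : ℕ) : ℝ) * (x : ℝ) ^ (-s) ≤ S := by
    refine le_trans ?_ h3
    rw [← nsmul_eq_mul]
    apply card_nsmul_le_sum
    intro d hd
    rw [mem_filter, mem_Icc] at hd
    rw [Set.indicator_of_mem (by exact hd.2)]
    have hd0 : (0:ℝ) < d := by exact_mod_cast hd.1.1
    apply Real.rpow_le_rpow_of_nonpos hd0 (by exact_mod_cast hd.1.2) (by linarith)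
  have h6 : (x : ℝ) ^ (-s) * (x : ℝ) ^ s = 1 := by
    rw [← Real.rpow_add hx0]
    simp
  have h7 : 0 < (x : ℝ) ^ s := by positivity
  calc _ = (({d ∈ Icc 1 x | ¬ Below A d (f d)}.card : ℕ) : ℝ) * (x : ℝ) ^ (-s) * (x : ℝ) ^ s := by
        rw [mul_assoc, h6, mul_one]
    _ ≤ S * (x : ℝ) ^ s := mul_le_mul_of_nonneg_right h4 h7.le
    _ ≤ (x : ℝ) ^ ε * (x : ℝ) ^ s := mul_le_mul_of_nonneg_right hx h7.le
    _ = _ := by rw [← Real.rpow_add hx0, add_comm]

/-- the number of exceptional moduli -/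
theorem poly_count {Ω : Type*} [MeasurableSpace Ω] (P : Measure Ω) [IsProbabilityMeasure P]
    {E : ℕ → Set Ω} {κ : ℕ → ℕ} (hE : ∀ n, MeasurableSet (E n))
    (hT : ∀ T : Finset ℕ, (∀ n ∈ T, 3 ≤ n ∧ T.card ≤ κ n) →
      P (⋂ n ∈ T, E n) = ENNReal.ofReal (∏ n ∈ T, 1 / Real.log n))
    {c A s : ℝ} (hc : 0 < c) (hA : 2 < A) (hs : 2 - c / 2 * (A - 2) < s) (hs0 : 0 < s)
    (hκ : ∀ᶠ n : ℕ in atTop, c * gg n ≤ κ n) :
    ∀ᵐ ω ∂P, ∀ᶠ x : ℕ in atTop,
      ({d : ℕ | d ≤ x ∧ ¬ Below {n | ω ∈ E n} d ((d : ℝ) * Real.log d ^ A)}.ncard : ℝ) ≤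
        (x : ℝ) ^ s := by
  set s' : ℝ := max (s / 2) ((2 - c / 2 * (A - 2) + s) / 2) with hs'
  have h1 : s' < s := max_lt (by linarith) (by linarith)
  have h2 : 0 < s' := lt_max_of_lt_left (by linarith)
  have h3 : (2 - c / 2 * (A - 2) + s) / 2 ≤ s' := le_max_right _ _
  have h4 := poly_upper P hE hT (c := c) (A := A) (ε := (s' - (2 - c / 2 * (A - 2))) / 2) hc hA
    (by linarith) hκ (u := fun d => (d : ℝ) ^ (-s')) (fun d => by positivity) (by
      have h5 : Summable fun d : ℕ => (d : ℝ) ^ (-1 - (s' - (2 - c / 2 * (A - 2))) / 2) :=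
        Real.summable_nat_rpow.2 (by linarith)
      refine Summable.of_norm_bounded_eventually_nat h5 ?_
      filter_upwards [eventually_ge_atTop 1] with d hd
      have hd0 : (0:ℝ) < d := by exact_mod_cast hd
      rw [Real.norm_of_nonneg (by positivity), ← Real.rpow_add hd0]
      apply le_of_eq
      congr 1
      ring)
  filter_upwards [h4] with ω hω
  have h6 := count_of_summable h2 hω (ε := s - s') (by linarith)
  filter_upwards [h6] with x hx
  have h7 : s' + (s - s') = s := by ring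
  rwa [h7] at hx

/-- a lower bound for the totient -/
lemma tot_lower : ∀ᶠ d : ℕ in atTop, (d : ℝ) / (6 * Real.log d) ≤ (d.totient : ℝ) / 2 - 1 ∧
    2 * (d : ℝ) ^ (1 / 2 : ℝ) ≤ d.totient := by
  have hrootd : ∀ᶠ d : ℕ in atTop, 8 * Real.log d ≤ (d : ℝ) ^ (1 / 2 : ℝ) := by
    have h1 : Tendsto (fun d : ℕ => Real.log d / (d : ℝ) ^ (1 / 2 : ℝ)) atTop (𝓝 0) :=
      (isLittleO_log_rpow_atTop (by positivity)).tendsto_div_nhds_zero.comp
        tendsto_natCast_atTop_atTop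
    filter_upwards [h1.eventually_lt_const (show (0:ℝ) < 1 / 8 by positivity),
      eventually_ge_atTop 1] with d hd hd1
    have hd0 : (0:ℝ) < d := by exact_mod_cast hd1
    rw [div_lt_iff₀ (by positivity)] at hd
    linarith
  filter_upwards [hrootd, eventually_ge_atTop 3, tendsto_log_nat.eventually_ge_atTop (8 : ℝ)]
    with d hrt hd3 hl8
  have hdR : (3:ℝ) ≤ d := by exact_mod_cast hd3
  have hd0 : (0:ℝ) < d := by linarith
  have hlog : 0 < Real.log (d : ℝ) := by linarith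
  have htot : (d : ℝ) / (5 / 2 * Real.log d) ≤ d.totient := by
    refine le_trans ?_ (totient_ge (n := d) (by omega))
    apply div_le_div_of_nonneg_left hd0.le (by positivity)
    have h4 : (Nat.log 2 d : ℝ) ≤ Real.logb 2 d := Real.natLog_le_logb d 2
    have h5 : Real.logb 2 d = Real.log d / Real.log 2 := rfl
    have h7 : (0.6931471803:ℝ) < Real.log 2 := Real.log_two_gt_d9
    have h8 : Real.log d / Real.log 2 ≤ 2 * Real.log d := by
      rw [div_le_iff₀ (by linarith)]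
      nlinarith
    linarith
  have hroot : (d : ℝ) ^ (1 / 2 : ℝ) * (d : ℝ) ^ (1 / 2 : ℝ) = d := by
    rw [← Real.rpow_add hd0]
    norm_num
  constructor
  · have h12 : (d : ℝ) / (5 / 2 * Real.log d) / 2 - 1 ≤ (d.totient : ℝ) / 2 - 1 := by linarith
    refine le_trans ?_ h12
    have h13 : 30 * Real.log d ≤ d := by
      have h14 : 8 * Real.log d * (8 * Real.log d) ≤ d :=
        (mul_le_mul hrt hrt (by positivity) (by positivity)).trans hroot.le
      nlinarith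
    have h15 : (d : ℝ) / (5 / 2 * Real.log d) / 2 = (6 / 5) * ((d : ℝ) / (6 * Real.log d)) := by
      field_simp
    rw [h15]
    have h16 : 5 ≤ (d : ℝ) / (6 * Real.log d) := by
      rw [le_div_iff₀ (by positivity)]
      linarith
    linarith
  · refine le_trans ?_ htot
    rw [le_div_iff₀ (by positivity)]
    have h9 : 2 * (d : ℝ) ^ (1 / 2 : ℝ) * (5 / 2 * Real.log d) ≤
        (d : ℝ) ^ (1 / 2 : ℝ) * (d : ℝ) ^ (1 / 2 : ℝ) := by
      have h10 := mul_le_mul_of_nonneg_left hrt (show (0:ℝ) ≤ (d : ℝ) ^ (1 / 2 : ℝ) by positivity)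
      nlinarith
    rw [hroot] at h9
    exact h9

/-- the elements of a class with large residue are large -/
lemma cls0_large {d a J y : ℕ} {R : ℝ} (hR : 3 ≤ R) (hd : 2 * R ≤ d.totient)
    (ha : d.totient ≤ 2 * a) (hy : y ∈ cls0 J d a) : 3 ≤ y ∧ Real.log R ≤ Real.log y := by
  obtain ⟨j, hj, rfl⟩ := mem_cls0.1 hy
  have h31 : R ≤ ((a + j * d : ℕ) : ℝ) := by
    have h32 : (d.totient : ℝ) ≤ 2 * a := by exact_mod_cast ha
    push_cast
    have : (0:ℝ) ≤ (j : ℝ) * d := by positivity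
    linarith
  exact ⟨by exact_mod_cast hR.trans h31, Real.log_le_log (by linarith) h31⟩

/-- the mass of the empty set for blocks of polylogarithmic size -/
theorem mass_poly {c A : ℝ} (hc : 0 < c) (hA2 : 2 ≤ A) (hA : A < 2 + 2 / c) :
    ∀ᶠ d : ℕ in atTop, ∃ δ : ℝ, 0 ≤ δ ∧ 1 ≤ ((d.totient : ℝ) / 2 - 1) * δ ∧
      ∀ a, d.totient ≤ 2 * a → a < d →
        ∃ w : Finset ℕ → ℝ, IsLaw (cls0 (⌊Real.log (d : ℝ) ^ A⌋₊ - 1) d a)
          (2 * ⌈c / 2 * gg d⌉₊ + 1) cp w ∧ δ ≤ w ∅ := by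
  have he := Real.exp_pos 1
  set ρ : ℝ := (1 - c / 2 * (A - 2)) / 4 with hρdef
  have hρ : 0 < ρ := by
    have h6 : c / 2 * (A - 2) < c / 2 * (2 / c) :=
      mul_lt_mul_of_pos_left (by linarith) (by positivity)
    have h7 : c / 2 * (2 / c) = 1 := by field_simp
    rw [hρdef]
    linarith
  set η : ℝ := 2 * ρ / c with hη
  have hη0 : 0 < η := by positivity
  set C₀ : ℝ := Real.log (8 * Real.exp 1 / c) with hC₀
  filter_upwards [tendsto_log_nat.eventually_ge_atTop 34, tendsto_ll.eventually_ge_atTop 1,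
    tendsto_ll.eventually_ge_atTop (2 * c), tendsto_ll.eventually_ge_atTop (C₀ / (η / 2)),
    lll_small (η := η / 2) (by positivity), ll_small (η := ρ / (A - 2 + η)) (by
      apply div_pos hρ
      linarith), ll_small (η := ρ) hρ, ll_small (η := c / 4) (by positivity),
    tendsto_log_nat.eventually_ge_atTop (Real.log 384 / ρ), tot_lower,
    (Real.tendsto_log_atTop.comp tendsto_ll).eventually_ge_atTop (-C₀), eventually_ge_atTop 9]
    with d hl34 hll1 hllc hllC hlll hsA hsρ hsc hl384 htot hlllC hd9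
  set ℓ := Real.log (d : ℝ) with hℓ
  set ℓ₂ := Real.log ℓ with hℓ₂
  have hdR : (9:ℝ) ≤ d := by exact_mod_cast hd9
  have hd0 : (0:ℝ) < d := by linarith
  have hℓ0 : 0 < ℓ := by linarith
  have hℓ20 : 0 < ℓ₂ := by linarith
  have hgg : gg d = ℓ / ℓ₂ := rfl
  have hA0 : 0 < A - 2 + η := by linarith
  set m : ℕ := ⌈c / 2 * gg d⌉₊ with hm
  have hg0 : 0 < c / 2 * gg d := by rw [hgg]; positivity
  have hm1 : c / 2 * gg d ≤ m := Nat.le_ceil _
  have hm2 : (m : ℝ) < c / 2 * gg d + 1 := Nat.ceil_lt_add_one hg0.le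
  have hm10 : 1 ≤ m := Nat.ceil_pos.2 hg0
  have hm0 : (1:ℝ) ≤ m := by exact_mod_cast hm10
  set X : ℝ := ℓ ^ A with hX
  have hXℓ : ℓ ^ 2 ≤ X := by
    rw [hX, ← Real.rpow_natCast]
    apply Real.rpow_le_rpow_of_exponent_le (by linarith)
    push_cast
    linarith
  have hX0 : 0 < X := by positivity
  have hfl : (⌊X⌋₊ : ℝ) ≤ X := Nat.floor_le (by positivity)
  have hfl2 : X - 1 < ⌊X⌋₊ := Nat.sub_one_lt_floor _
  have hfl1 : 1 ≤ ⌊X⌋₊ := Nat.le_floor (by push_cast; nlinarith)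
  have hfl1R : (1:ℝ) ≤ ⌊X⌋₊ := by exact_mod_cast hfl1
  have hgle : c / 2 * gg d ≤ ℓ / 4 := by
    rw [hgg, ← mul_div_assoc, div_le_iff₀ hℓ20]
    nlinarith
  have hbase0 : 0 < Real.exp 1 * (⌊X⌋₊ : ℝ) / (m * (ℓ / 2 - 1)) := by
    apply div_pos (by positivity)
    apply mul_pos (by linarith)
    linarith
  refine ⟨1 / 2 / 32 / (Real.exp 1 * (⌊X⌋₊ : ℝ) / (m * (ℓ / 2 - 1))) ^ m, by positivity, ?_, ?_⟩
  · have hbase : Real.exp 1 * (⌊X⌋₊ : ℝ) / (m * (ℓ / 2 - 1)) ≤
        Real.exp (C₀ + Real.log ℓ₂ + (A - 2) * ℓ₂) := by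
      have h1 : Real.exp (C₀ + Real.log ℓ₂ + (A - 2) * ℓ₂) =
          8 * Real.exp 1 / c * ℓ₂ * (X / ℓ ^ 2) := by
        rw [Real.exp_add, Real.exp_add, hC₀, Real.exp_log (by positivity), Real.exp_log hℓ20]
        congr 1
        have h2 : ℓ ^ 2 = Real.exp (2 * ℓ₂) := by
          rw [two_mul, Real.exp_add, hℓ₂, Real.exp_log hℓ0]
          ring
        rw [h2, hX, Real.rpow_def_of_pos hℓ0, ← hℓ₂, ← Real.exp_sub]
        congr 1
        ring
      rw [h1]
      have h3 : c / 2 * (ℓ / ℓ₂) * (ℓ / 4) ≤ m * (ℓ / 2 - 1) := by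
        apply mul_le_mul _ (by linarith) (by positivity) (by linarith)
        rw [← hgg]
        exact hm1
      calc _ ≤ (Real.exp 1 * X) / (c / 2 * (ℓ / ℓ₂) * (ℓ / 4)) := by
            apply div_le_div₀ (by positivity) _ (by positivity) h3
            exact mul_le_mul_of_nonneg_left hfl he.le
        _ = _ := by
            field_simp
            norm_num
    have h4 := pow_le_pow_left₀ hbase0.le hbase m
    rw [← Real.exp_nat_mul] at h4
    have h5 : (m : ℝ) * (C₀ + Real.log ℓ₂ + (A - 2) * ℓ₂) ≤ (1 - 2 * ρ) * ℓ := by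
      have hC : C₀ ≤ η / 2 * ℓ₂ := by
        rw [div_le_iff₀ (by positivity)] at hllC
        linarith
      have hY : C₀ + Real.log ℓ₂ + (A - 2) * ℓ₂ ≤ (A - 2 + η) * ℓ₂ := by linarith
      have hY0 : 0 ≤ (A - 2 + η) * ℓ₂ := by positivity
      have h6 : (m : ℝ) * (C₀ + Real.log ℓ₂ + (A - 2) * ℓ₂) ≤
          (c / 2 * gg d + 1) * ((A - 2 + η) * ℓ₂) :=
        (mul_le_mul_of_nonneg_left hY (by linarith)).trans
          (mul_le_mul_of_nonneg_right hm2.le hY0)
      have h7 : (c / 2 * gg d + 1) * ((A - 2 + η) * ℓ₂) =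
          c / 2 * (A - 2 + η) * ℓ + (A - 2 + η) * ℓ₂ := by
        rw [hgg]
        field_simp
      have h8 : c / 2 * (A - 2 + η) = 1 - 3 * ρ := by
        rw [hη]
        have : c / 2 * (2 * ρ / c) = ρ := by field_simp
        rw [mul_add, this]
        rw [hρdef]
        ring
      have h9 : (A - 2 + η) * ℓ₂ ≤ ρ * ℓ := by
        have := mul_le_mul_of_nonneg_left hsA hA0.le
        have h10 : (A - 2 + η) * (ρ / (A - 2 + η) * ℓ) = ρ * ℓ := by field_simp
        rwa [h10] at this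
      rw [h7, h8] at h6
      linarith
    have h11 : (Real.exp 1 * (⌊X⌋₊ : ℝ) / (m * (ℓ / 2 - 1))) ^ m ≤ Real.exp ((1 - 2 * ρ) * ℓ) :=
      h4.trans (Real.exp_le_exp.2 h5)
    have h12 : 1 / 2 / 32 / Real.exp ((1 - 2 * ρ) * ℓ) ≤
        1 / 2 / 32 / (Real.exp 1 * (⌊X⌋₊ : ℝ) / (m * (ℓ / 2 - 1))) ^ m :=
      div_le_div_of_nonneg_left (by norm_num) (by positivity) h11
    have h13 : 384 * ℓ ≤ Real.exp (2 * ρ * ℓ) := by
      have h14 : Real.log 384 + ℓ₂ ≤ 2 * ρ * ℓ := by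
        rw [div_le_iff₀ hρ] at hl384
        linarith
      have h15 : (384:ℝ) * ℓ = Real.exp (Real.log 384 + ℓ₂) := by
        rw [Real.exp_add, Real.exp_log (by norm_num), hℓ₂, Real.exp_log hℓ0]
      rw [h15]
      exact Real.exp_le_exp.2 h14
    calc (1:ℝ) ≤ (d : ℝ) / (6 * ℓ) * (1 / 2 / 32 / Real.exp ((1 - 2 * ρ) * ℓ)) := by
          have h16 : (d : ℝ) = Real.exp ((1 - 2 * ρ) * ℓ) * Real.exp (2 * ρ * ℓ) := by
            rw [← Real.exp_add]
            have : (1 - 2 * ρ) * ℓ + 2 * ρ * ℓ = ℓ := by ring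
            rw [this, hℓ, Real.exp_log hd0]
          rw [h16]
          have h17 : Real.exp ((1 - 2 * ρ) * ℓ) * Real.exp (2 * ρ * ℓ) / (6 * ℓ) *
              (1 / 2 / 32 / Real.exp ((1 - 2 * ρ) * ℓ)) = Real.exp (2 * ρ * ℓ) / (384 * ℓ) := by
            field_simp
            norm_num
          rw [h17, le_div_iff₀ (by positivity), one_mul]
          exact h13
      _ ≤ _ := mul_le_mul htot.1 h12 (by positivity) (le_trans (by positivity) htot.1)
  · intro a ha1 ha2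
    have hcard : (cls0 (⌊X⌋₊ - 1) d a).card = ⌊X⌋₊ := by
      rw [card_cls0 (by omega)]
      omega
    have hR3 : (3:ℝ) ≤ (d : ℝ) ^ (1 / 2 : ℝ) := by
      have h18 : ((9:ℝ)) ^ (1 / 2 : ℝ) = 3 := by
        rw [show (9:ℝ) = 3 ^ (2:ℝ) by norm_num, ← Real.rpow_mul (by norm_num)]
        norm_num
      rw [← h18]
      exact Real.rpow_le_rpow (by norm_num) hdR (by norm_num)
    have h19 := mass_growing (I := cls0 (⌊X⌋₊ - 1) d a) (m := m) (L := ℓ / 2) (σ := 1 / 2) hm10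
      (by norm_num) (by norm_num) (by linarith) (by
        rw [hcard]
        have h20 : (m : ℝ) * ℓ ≤ (ℓ / 4 + 1) * ℓ :=
          mul_le_mul_of_nonneg_right (by linarith) hℓ0.le
        nlinarith) (by
        intro y hy
        have h21 := cls0_large hR3 htot.2 ha1 hy
        rw [Real.log_rpow hd0] at h21
        refine ⟨h21.1, ?_⟩
        have h22 := h21.2
        linarith)
    rw [hcard] at h19
    exact h19

end Q167.PR
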