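import Pool.Agent.Q167.PR.F

/-! # Polylogarithmic bounds for the least elements of residue classes: models -/

set_option autoImplicit false

namespace Q167.PR

open Finset MeasureTheory Filter Topology Q198.CI Q167.LI Q167.AN Q167.SQ

lemma gg_tendsto (C : ℝ) : ∀ᶠ d : ℕ in atTop, C ≤ gg d := by
  filter_upwards [ll_small (η := 1 / (|C| + 1)) (by positivity), tendsto_ll.eventually_ge_atTop 1]
    with d hd hll
  have h1 : 0 < Real.log (Real.log (d : ℝ)) := by linarith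
  unfold gg
  rw [le_div_iff₀ h1]
  have h2 : (|C| + 1) * Real.log (Real.log (d : ℝ)) ≤ Real.log d := by
    have := mul_le_mul_of_nonneg_left hd (show 0 ≤ |C| + 1 by positivity)
    rwa [← mul_assoc, mul_one_div_cancel (by positivity), one_mul] at this
  have h3 : C * Real.log (Real.log (d : ℝ)) ≤ (|C| + 1) * Real.log (Real.log (d : ℝ)) :=
    mul_le_mul_of_nonneg_right (by linarith [le_abs_self C]) h1.le
  linarith

/-- upper bounds for the order in a block -/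
lemma kappa_le {κ : ℕ → ℕ} {c' c₁ A : ℝ} (hc' : 0 < c') (hc : c' < c₁) (hA : 0 < A)
    (hκ : ∀ᶠ n : ℕ in atTop, (κ n : ℝ) ≤ c' * gg n) :
    ∀ᶠ d : ℕ in atTop, ∀ n ≤ ⌊Real.log (d : ℝ) ^ A⌋₊ * d,
      κ n ≤ 2 * ⌈c₁ / 2 * gg d⌉₊ + 1 := by
  obtain ⟨n₀, hn₀⟩ := eventually_atTop.1 (hκ.and (tendsto_log_nat.eventually_ge_atTop
    (Real.exp 1)))
  set η : ℝ := (c₁ - c') / c' with hη
  have hη0 : 0 < η := div_pos (by linarith) hc'
  filter_upwards [gg_tendsto ((∑ n ∈ range n₀, κ n : ℕ) / c₁), ll_small (η := η / A)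
    (by positivity), tendsto_ll.eventually_ge_atTop 1, tendsto_log_nat.eventually_ge_atTop 3,
    eventually_ge_atTop 3] with d hd hll hll1 hl3 hd3 n hn
  have hdR : (3:ℝ) ≤ d := by exact_mod_cast hd3
  have hd0 : (0:ℝ) < d := by linarith
  set ℓ := Real.log (d : ℝ) with hℓ
  set ℓ₂ := Real.log ℓ with hℓ₂
  have hℓ0 : 0 < ℓ := by linarith
  have hℓ20 : 0 < ℓ₂ := by linarith
  have hc1 : 0 < c₁ := by linarith
  have hceil : c₁ * gg d ≤ ((2 * ⌈c₁ / 2 * gg d⌉₊ + 1 : ℕ) : ℝ) := by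
    have := Nat.le_ceil (c₁ / 2 * gg d)
    push_cast
    linarith
  have key : (κ n : ℝ) ≤ c₁ * gg d := by
    rcases lt_or_ge n n₀ with h | h
    · have h1 : κ n ≤ ∑ n ∈ range n₀, κ n :=
        single_le_sum (fun i _ => Nat.zero_le _) (mem_range.2 h)
      have h2 : ((∑ n ∈ range n₀, κ n : ℕ) : ℝ) ≤ c₁ * gg d := by
        rw [div_le_iff₀ hc1] at hd
        linarith
      exact le_trans (by exact_mod_cast h1) h2
    · obtain ⟨h1, h2⟩ := hn₀ n h
      refine h1.trans ?_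
      have hn0 : 0 < n := by
        by_contra h0
        have h00 : n = 0 := by omega
        rw [h00, Nat.cast_zero, Real.log_zero] at h2
        linarith [Real.exp_pos 1]
      have h3 : Real.log n ≤ ℓ + A * ℓ₂ := by
        have h4 : (n : ℝ) ≤ ℓ ^ A * d := by
          have h5 : (n : ℝ) ≤ (⌊ℓ ^ A⌋₊ : ℝ) * d := by exact_mod_cast hn
          have h6 : (⌊ℓ ^ A⌋₊ : ℝ) ≤ ℓ ^ A := Nat.floor_le (by positivity)
          nlinarith
        have h7 := Real.log_le_log (by exact_mod_cast hn0) h4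
        rw [Real.log_mul (by positivity) hd0.ne', Real.log_rpow hℓ0] at h7
        linarith
      have h8 : gg n ≤ (ℓ + A * ℓ₂) / Real.log (ℓ + A * ℓ₂) := gg_mono_real h2 h3
      have h9 : (ℓ + A * ℓ₂) / Real.log (ℓ + A * ℓ₂) ≤ (ℓ + A * ℓ₂) / ℓ₂ := by
        apply div_le_div_of_nonneg_left (by positivity) hℓ20
        exact Real.log_le_log hℓ0 (by nlinarith)
      have h10 : A * ℓ₂ ≤ η * ℓ := by
        have := mul_le_mul_of_nonneg_left hll hA.le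
        have h11 : A * (η / A * ℓ) = η * ℓ := by field_simp
        rwa [h11] at this
      have h12 : c' * gg n ≤ c' * ((1 + η) * (ℓ / ℓ₂)) := by
        apply mul_le_mul_of_nonneg_left _ hc'.le
        refine h8.trans (h9.trans ?_)
        rw [← mul_div_assoc]
        apply div_le_div_of_nonneg_right _ hℓ20.le
        linarith
      refine h12.trans (le_of_eq ?_)
      have h13 : c' * (1 + η) = c₁ := by
        rw [hη]
        field_simp
        ring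
      rw [← mul_assoc, h13]
      rfl
  exact_mod_cast key.trans hceil

/-- orders which are small infinitely often are small on blocks -/
lemma freq_small {κ : ℕ → ℕ} (hmono : Monotone κ)
    (h : ∀ c : ℝ, 0 < c → ∃ᶠ n : ℕ in atTop, (κ n : ℝ) < c * gg n) {c A : ℝ} (hc : 0 < c)
    (hA : 0 < A) :
    ∃ᶠ d : ℕ in atTop, (κ (⌊Real.log (d : ℝ) ^ A⌋₊ * d) : ℝ) ≤ c * gg d := by
  have hpow : ∀ᶠ d : ℕ in atTop, Real.log (d : ℝ) ^ A ≤ d := by
    filter_upwards [ll_small (η := 1 / A) (by positivity), tendsto_log_nat.eventually_gt_atTop 0,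
      eventually_ge_atTop 1] with d hd hl hd1
    have hd0 : (0:ℝ) < d := by exact_mod_cast hd1
    rw [Real.rpow_def_of_pos hl, ← Real.exp_log hd0, Real.log_exp]
    apply Real.exp_le_exp.2
    have := mul_le_mul_of_nonneg_right hd hA.le
    have h1 : 1 / A * Real.log (d : ℝ) * A = Real.log d := by field_simp
    rwa [h1] at this
  obtain ⟨d₀, hd₀⟩ := eventually_atTop.1 (hpow.and ((tendsto_ll.eventually_ge_atTop 1).and
    ((tendsto_log_nat.eventually_ge_atTop 1).and (eventually_ge_atTop 3))))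
  rw [frequently_atTop]
  intro N
  obtain ⟨n, hn1, hn2⟩ := (h (c / 4) (by positivity)).forall_exists_of_atTop
    ((max N d₀ + 1) ^ 2)
  set d := Nat.sqrt n with hd
  have hdN : max N d₀ ≤ d := by
    rw [hd, Nat.le_sqrt']
    refine le_trans ?_ hn1
    exact Nat.pow_le_pow_left (by omega) 2
  obtain ⟨h1, h2, h3, h4⟩ := hd₀ d ((le_max_right _ _).trans hdN)
  refine ⟨d, (le_max_left _ _).trans hdN, ?_⟩
  have hdR : (3:ℝ) ≤ d := by exact_mod_cast h4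
  have hd0 : (0:ℝ) < d := by linarith
  set ℓ := Real.log (d : ℝ) with hℓ
  have hℓ0 : 0 < ℓ := by linarith
  have htop : ⌊ℓ ^ A⌋₊ * d ≤ n := by
    have h5 : ⌊ℓ ^ A⌋₊ ≤ d := by
      have h6 : (⌊ℓ ^ A⌋₊ : ℝ) ≤ d := (Nat.floor_le (by positivity)).trans h1
      exact_mod_cast h6
    exact (Nat.mul_le_mul_right _ h5).trans (Nat.sqrt_le n)
  have h7 : (κ (⌊ℓ ^ A⌋₊ * d) : ℝ) ≤ κ n := by exact_mod_cast hmono htop
  refine h7.trans (hn2.le.trans ?_)
  have hnd : d ≤ n := Nat.sqrt_le_self n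
  have hn0 : (0:ℝ) < n := by exact_mod_cast (by omega : 0 < n)
  have h8 : Real.log n ≤ 4 * ℓ := by
    have h9 : n ≤ d ^ 4 := by
      have h10 : n ≤ (d + 1) ^ 2 := (Nat.lt_succ_sqrt' n).le
      nlinarith [Nat.pow_le_pow_left (show d + 1 ≤ d ^ 2 by nlinarith) 2]
    have h11 : (n : ℝ) ≤ (d : ℝ) ^ 4 := by exact_mod_cast h9
    have h12 := Real.log_le_log hn0 h11
    rw [Real.log_pow] at h12
    push_cast at h12
    exact h12
  have h13 : ℓ ≤ Real.log n := Real.log_le_log hd0 (by exact_mod_cast hnd)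
  have h14 : gg n ≤ 4 * gg d := by
    unfold gg
    rw [← mul_div_assoc]
    have h15 : 0 < Real.log ℓ := by linarith
    apply div_le_div₀ (by positivity) h8 h15
    exact Real.log_le_log hℓ0 h13
  nlinarith

lemma not_below_of_empty {A : Set ℕ} {d a J : ℕ} {t : ℝ} (ha1 : 1 ≤ a) (ha2 : a < d)
    (ha3 : Nat.Coprime a d) (h : ∀ j ≤ J, a + j * d ∉ A) (ht : t ≤ ((J + 1 : ℕ) : ℝ) * d) :
    ¬ Below A d t := by
  intro hB
  obtain ⟨j, h1, h2⟩ := hB a ha1 ha2 ha3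
  have h3 : J + 1 ≤ j := by
    by_contra h0
    exact h j (by omega) h1
  have h4 : (((J + 1) * d : ℕ) : ℝ) ≤ ((a + j * d : ℕ) : ℝ) := by
    have : (J + 1) * d ≤ j * d := Nat.mul_le_mul_right _ h3
    exact_mod_cast (by omega : (J + 1) * d ≤ a + j * d)
  push_cast at h4 h2 ht
  linarith

/-- a model with empty classes in the polylogarithmic range -/
theorem poly_lower {κ : ℕ → ℕ} {c : ℝ} (hc : 0 < c)
    (hκ : ∀ c' : ℝ, c < c' → ∀ᶠ n : ℕ in atTop, (κ n : ℝ) ≤ c' * gg n) {D : Set ℕ}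
    (hD : D.Infinite) :
    ∃ (Ω : Type) (_ : MeasurableSpace Ω) (P : Measure Ω) (_ : IsProbabilityMeasure P)
      (E : ℕ → Set Ω), (∀ n, MeasurableSet (E n)) ∧
      (∀ T : Finset ℕ, (∀ n ∈ T, 3 ≤ n ∧ T.card ≤ κ n) →
        P (⋂ n ∈ T, E n) = ENNReal.ofReal (∏ n ∈ T, 1 / Real.log n)) ∧
      ∀ᵐ ω ∂P, ∀ ε : ℝ, 0 < ε → ∃ᶠ d : ℕ in atTop, d ∈ D ∧
        ¬ Below {n | ω ∈ E n} d ((d : ℝ) * Real.log d ^ (2 + 2 / c - ε)) := by
  set cc : ℕ → ℝ := fun i => c * (1 + 1 / ((i : ℝ) + 3)) with hcc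
  set AA : ℕ → ℝ := fun i => 2 + 2 / c * (1 - 1 / ((i : ℝ) + 2)) with hAA
  have hcc0 : ∀ i, c < cc i := by
    intro i
    have : 0 < c * (1 / ((i : ℝ) + 3)) := by positivity
    simp only [hcc]
    linarith
  have hAA2 : ∀ i, 2 ≤ AA i := by
    intro i
    have h1 : 1 / ((i : ℝ) + 2) ≤ 1 := by
      rw [div_le_one (by positivity)]
      have : (0:ℝ) ≤ i := Nat.cast_nonneg _
      linarith
    have : 0 ≤ 2 / c * (1 - 1 / ((i : ℝ) + 2)) := mul_nonneg (by positivity) (by linarith)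
    simp only [hAA]
    linarith
  have hAAlt : ∀ i, AA i < 2 + 2 / cc i := by
    intro i
    simp only [hAA, hcc]
    have h0 : (0:ℝ) ≤ i := Nat.cast_nonneg _
    have h1 : 2 / (c * (1 + 1 / ((i : ℝ) + 3))) = 2 / c * (((i : ℝ) + 3) / ((i : ℝ) + 4)) := by
      field_simp
      ring
    rw [h1]
    have h2 : (1 - 1 / ((i : ℝ) + 2)) < ((i : ℝ) + 3) / ((i : ℝ) + 4) := by
      have h3 : 1 - 1 / ((i : ℝ) + 2) = ((i : ℝ) + 1) / ((i : ℝ) + 2) := by
        field_simp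
        ring
      rw [h3, div_lt_div_iff₀ (by positivity) (by positivity)]
      nlinarith
    have := mul_lt_mul_of_pos_left h2 (show 0 < 2 / c by positivity)
    linarith
  obtain ⟨Ω, mΩ, P, hP, E, hE, hT, hae⟩ := prog_model_seq (κ := κ)
    (J := fun i d => ⌊Real.log (d : ℝ) ^ AA i⌋₊ - 1) (D := D)
    (by
      intro i
      have h1 := kappa_le (κ := κ) (c' := (c + cc i) / 2) (c₁ := cc i) (A := AA i)
        (by have := hcc0 i; linarith) (by have := hcc0 i; linarith)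
        (by have := hAA2 i; linarith) (hκ _ (by have := hcc0 i; linarith))
      have h2 := mass_poly (c := cc i) (A := AA i) (by have := hcc0 i; linarith) (hAA2 i)
        (hAAlt i)
      refine ((Nat.frequently_atTop_iff_infinite.2 hD).and_eventually
        (h1.and (h2.and (tendsto_log_nat.eventually_ge_atTop 1)))).mono ?_
      rintro d ⟨hdD, h3, ⟨δ, h4, h5, h6⟩, h7⟩
      refine ⟨hdD, 2 * ⌈cc i / 2 * gg d⌉₊ + 1, δ, ?_, h4, h5, h6⟩
      have h8 : 1 ≤ ⌊Real.log (d : ℝ) ^ AA i⌋₊ := by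
        apply Nat.le_floor
        push_cast
        exact Real.one_le_rpow h7 (by have := hAA2 i; linarith)
      have h9 : ⌊Real.log (d : ℝ) ^ AA i⌋₊ - 1 + 1 = ⌊Real.log (d : ℝ) ^ AA i⌋₊ := by omega
      simp only [h9]
      exact h3)
  refine ⟨Ω, mΩ, P, hP, E, hE, hT, ?_⟩
  filter_upwards [hae] with ω hω
  intro ε hε
  obtain ⟨i₀, hi₀⟩ := exists_nat_one_div_lt (show (0:ℝ) < ε * c / 4 by positivity)
  refine ((hω i₀).and_eventually ((tendsto_log_nat.eventually_ge_atTop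
    (Real.exp (2 * Real.log 2 / ε))).and (tendsto_log_nat.eventually_ge_atTop 2))).mono ?_
  rintro d ⟨⟨hdD, i, hi, a, ha1, ha2, ha3, ha4⟩, hl, hl2⟩
  refine ⟨hdD, not_below_of_empty ha1 ha2 ha3 ha4 ?_⟩
  have hd0 : (0:ℝ) < d := by exact_mod_cast (by omega : 0 < d)
  set ℓ := Real.log (d : ℝ) with hℓ
  have hℓ0 : 0 < ℓ := by linarith
  rw [mul_comm]
  apply mul_le_mul_of_nonneg_right _ hd0.le
  have hX1 : 1 ≤ ℓ ^ AA i := Real.one_le_rpow (by linarith) (by have := hAA2 i; linarith)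
  have hfl1 : 1 ≤ ⌊ℓ ^ AA i⌋₊ := Nat.le_floor (by push_cast; exact hX1)
  have h9 : ⌊ℓ ^ AA i⌋₊ - 1 + 1 = ⌊ℓ ^ AA i⌋₊ := by omega
  rw [h9]
  have h10 : ℓ ^ AA i / 2 ≤ ⌊ℓ ^ AA i⌋₊ := by
    have h11 : ℓ ^ AA i < (⌊ℓ ^ AA i⌋₊ : ℝ) + 1 := Nat.lt_floor_add_one _
    have h12 : (1:ℝ) ≤ ⌊ℓ ^ AA i⌋₊ := by exact_mod_cast hfl1
    linarith
  refine le_trans ?_ h10
  have h13 : 2 + 2 / c - ε + ε / 2 ≤ AA i := by
    have h14 : 1 / ((i : ℝ) + 2) ≤ 1 / ((i₀ : ℝ) + 1) := by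
      apply one_div_le_one_div_of_le (by positivity)
      have : (i₀ : ℝ) ≤ i := by exact_mod_cast hi
      linarith
    have h15 : 2 / c * (1 / ((i : ℝ) + 2)) ≤ ε / 2 := by
      have h16 : 2 / c * (1 / ((i : ℝ) + 2)) ≤ 2 / c * (ε * c / 4) :=
        mul_le_mul_of_nonneg_left (h14.trans hi₀.le) (by positivity)
      have h17 : 2 / c * (ε * c / 4) = ε / 2 := by
        field_simp
        norm_num
      linarith
    simp only [hAA]
    linarith
  have h18 : 2 ≤ ℓ ^ (ε / 2) := by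
    have h19 : Real.exp (2 * Real.log 2 / ε) ^ (ε / 2) = 2 := by
      rw [← Real.exp_mul]
      have : 2 * Real.log 2 / ε * (ε / 2) = Real.log 2 := by field_simp
      rw [this, Real.exp_log (by norm_num)]
    calc (2:ℝ) = Real.exp (2 * Real.log 2 / ε) ^ (ε / 2) := h19.symm
      _ ≤ _ := Real.rpow_le_rpow (Real.exp_pos _).le hl (by positivity)
  have h20 : ℓ ^ (2 + 2 / c - ε) * ℓ ^ (ε / 2) ≤ ℓ ^ AA i := by
    rw [← Real.rpow_add hℓ0]
    exact Real.rpow_le_rpow_of_exponent_le (by linarith) h13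
  have h21 : 0 ≤ ℓ ^ (2 + 2 / c - ε) := by positivity
  nlinarith

/-- a model without polylogarithmic bound -/
theorem poly_none {κ : ℕ → ℕ} (hmono : Monotone κ)
    (h : ∀ c : ℝ, 0 < c → ∃ᶠ n : ℕ in atTop, (κ n : ℝ) < c * gg n) :
    ∃ (Ω : Type) (_ : MeasurableSpace Ω) (P : Measure Ω) (_ : IsProbabilityMeasure P)
      (E : ℕ → Set Ω), (∀ n, MeasurableSet (E n)) ∧
      (∀ T : Finset ℕ, (∀ n ∈ T, 3 ≤ n ∧ T.card ≤ κ n) →
        P (⋂ n ∈ T, E n) = ENNReal.ofReal (∏ n ∈ T, 1 / Real.log n)) ∧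
      ∀ᵐ ω ∂P, ∀ B C : ℝ, ∃ᶠ d : ℕ in atTop, ∃ a, 1 ≤ a ∧ a < d ∧ Nat.Coprime a d ∧
        ∀ j, a + j * d ∈ {n | ω ∈ E n} → C * (d * Real.log d ^ B) < ((a + j * d : ℕ) : ℝ) := by
  obtain ⟨Ω, mΩ, P, hP, E, hE, hT, hae⟩ := prog_model_seq (κ := κ)
    (J := fun i d => ⌊Real.log (d : ℝ) ^ ((i : ℝ) + 2)⌋₊ - 1) (D := Set.univ)
    (by
      intro i
      have hi0 : (0:ℝ) ≤ i := Nat.cast_nonneg _
      have h1 := freq_small hmono h (c := 1 / ((i : ℝ) + 1)) (A := (i : ℝ) + 2) (by positivity)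
        (by positivity)
      have h2 := mass_poly (c := 1 / ((i : ℝ) + 1)) (A := (i : ℝ) + 2) (by positivity)
        (by linarith) (by
          have h3 : 2 / (1 / ((i : ℝ) + 1)) = 2 * (i + 1) := by field_simp
          rw [h3]
          linarith)
      refine (h1.and_eventually (h2.and (tendsto_log_nat.eventually_ge_atTop 1))).mono ?_
      rintro d ⟨h3, ⟨δ, h4, h5, h6⟩, h7⟩
      refine ⟨Set.mem_univ _, 2 * ⌈1 / ((i : ℝ) + 1) / 2 * gg d⌉₊ + 1, δ, ?_, h4, h5, h6⟩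
      have h8 : 1 ≤ ⌊Real.log (d : ℝ) ^ ((i : ℝ) + 2)⌋₊ := by
        apply Nat.le_floor
        push_cast
        exact Real.one_le_rpow h7 (by linarith)
      have h9 : ⌊Real.log (d : ℝ) ^ ((i : ℝ) + 2)⌋₊ - 1 + 1 =
        ⌊Real.log (d : ℝ) ^ ((i : ℝ) + 2)⌋₊ := by omega
      simp only [h9]
      intro n hn
      have h10 : (κ n : ℝ) ≤ κ (⌊Real.log (d : ℝ) ^ ((i : ℝ) + 2)⌋₊ * d) := by
        exact_mod_cast hmono hn
      have h11 : 1 / ((i : ℝ) + 1) * gg d ≤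
          ((2 * ⌈1 / ((i : ℝ) + 1) / 2 * gg d⌉₊ + 1 : ℕ) : ℝ) := by
        have := Nat.le_ceil (1 / ((i : ℝ) + 1) / 2 * gg d)
        push_cast
        linarith
      exact_mod_cast h10.trans (h3.trans h11))
  refine ⟨Ω, mΩ, P, hP, E, hE, hT, ?_⟩
  filter_upwards [hae] with ω hω
  intro B C
  obtain ⟨i₀, hi₀⟩ := exists_nat_ge B
  refine ((hω i₀).and_eventually ((tendsto_log_nat.eventually_ge_atTop
    (|C| + 1)).and (tendsto_log_nat.eventually_ge_atTop 2))).mono ?_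
  rintro d ⟨⟨-, i, hi, a, ha1, ha2, ha3, ha4⟩, hl, hl2⟩
  refine ⟨a, ha1, ha2, ha3, fun j hj => ?_⟩
  have hd0 : (0:ℝ) < d := by exact_mod_cast (by omega : 0 < d)
  set ℓ := Real.log (d : ℝ) with hℓ
  have hℓ0 : 0 < ℓ := by linarith
  have hjJ : ⌊ℓ ^ ((i : ℝ) + 2)⌋₊ - 1 < j := by
    by_contra h0
    exact ha4 j (by omega) hj
  have h1 : ℓ ^ ((i : ℝ) + 2) < (⌊ℓ ^ ((i : ℝ) + 2)⌋₊ : ℝ) + 1 := Nat.lt_floor_add_one _
  have h2 : (⌊ℓ ^ ((i : ℝ) + 2)⌋₊ : ℝ) ≤ j := by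
    have h20 : ⌊ℓ ^ ((i : ℝ) + 2)⌋₊ ≤ j := by omega
    exact_mod_cast h20
  have h3 : ℓ ^ B * ℓ ^ (2:ℝ) ≤ ℓ ^ ((i : ℝ) + 2) := by
    rw [← Real.rpow_add hℓ0]
    apply Real.rpow_le_rpow_of_exponent_le (by linarith)
    have : (i₀ : ℝ) ≤ i := by exact_mod_cast hi
    linarith
  have h30 : 1 ≤ ℓ ^ ((i : ℝ) + 2) / 4 := by
    have h31 : ℓ ^ (2:ℝ) ≤ ℓ ^ ((i : ℝ) + 2) := by
      apply Real.rpow_le_rpow_of_exponent_le (by linarith)
      have : (0:ℝ) ≤ i := Nat.cast_nonneg _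
      linarith
    have h32 : ℓ ^ (2:ℝ) = ℓ * ℓ := by
      rw [← Nat.cast_ofNat (R := ℝ), Real.rpow_natCast]
      ring
    have h33 : 4 ≤ ℓ * ℓ := by nlinarith
    rw [h32] at h31
    linarith
  have h4 : C * ℓ ^ B < j := by
    have h5 : C * ℓ ^ B ≤ |C| * ℓ ^ B := mul_le_mul_of_nonneg_right (le_abs_self _) (by positivity)
    have h6 : ℓ ^ (2:ℝ) = ℓ * ℓ := by
      rw [← Nat.cast_ofNat (R := ℝ), Real.rpow_natCast]
      ring
    have h7 : 0 < ℓ ^ B := by positivity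
    rw [h6] at h3
    have h8 : 0 ≤ |C| := abs_nonneg C
    have h9 : 2 * (|C| + 1) ≤ ℓ * ℓ := by nlinarith
    have h10 : ℓ ^ B * (2 * (|C| + 1)) ≤ ℓ ^ ((i : ℝ) + 2) :=
      (mul_le_mul_of_nonneg_left h9 h7.le).trans h3
    nlinarith
  have h11 : (0:ℝ) < a := by exact_mod_cast ha1
  push_cast
  have h12 := mul_lt_mul_of_pos_right h4 hd0
  nlinarith

end Q167.PR
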