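import Pool.Agent.Q167.PR.G

/-! # Least elements of residue classes, orders `α log n`: all models -/

set_option autoImplicit false

namespace Q167.PR

open Finset MeasureTheory Filter Topology Q198.CI Q167.LI Q167.AN Q167.SQ

lemma exists_lt_rate {b₀ τ r : ℝ} (hb₀ : 0 < b₀) (hτ : 0 < τ) (hr : r < rate b₀ τ) :
    ∃ b : ℝ, 0 < b ∧ b < b₀ ∧ r < rate b τ := by
  have h1 : ContinuousAt (fun b : ℝ => rate b τ) b₀ := by
    unfold rate
    apply ContinuousAt.mul (by fun_prop)
    apply ContinuousAt.add continuousAt_const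
    apply ContinuousAt.log
    · exact ContinuousAt.div continuousAt_const continuousAt_id hb₀.ne'
    · positivity
  have h2 : ∀ᶠ b in 𝓝 b₀, r < rate b τ := h1.eventually (lt_mem_nhds hr)
  have h3 : ∀ᶠ b in 𝓝[<] b₀, r < rate b τ ∧ 0 < b ∧ b < b₀ := by
    filter_upwards [nhdsWithin_le_nhds h2, nhdsWithin_le_nhds (lt_mem_nhds hb₀),
      self_mem_nhdsWithin] with b h4 h5 h6
    exact ⟨h4, h5, h6⟩
  obtain ⟨b, h4, h5, h6⟩ := h3.exists
  exact ⟨b, h5, h6, h4⟩

/-- the classes without small elements, orders `b log n` -/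
theorem log_upper {Ω : Type*} [MeasurableSpace Ω] (P : Measure Ω) [IsProbabilityMeasure P]
    {E : ℕ → Set Ω} {κ : ℕ → ℕ} (hE : ∀ n, MeasurableSet (E n))
    (hT : ∀ T : Finset ℕ, (∀ n ∈ T, 3 ≤ n ∧ T.card ≤ κ n) →
      P (⋂ n ∈ T, E n) = ENNReal.ofReal (∏ n ∈ T, 1 / Real.log n))
    {b τ r : ℝ} (hb : 0 < b) (hbτ : b < 2 * τ) (hr : r < rate b τ)
    (hκ : ∀ᶠ n : ℕ in atTop, b * Real.log n ≤ κ n)
    {u : ℕ → ℝ} (hu : ∀ d, 0 ≤ u d)
    (hs : Summable fun d : ℕ => u d * (d : ℝ) ^ (1 - r)) :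
    ∀ᵐ ω ∂P, Summable fun d => {d : ℕ | ¬ Below {n | ω ∈ E n} d
      (τ * (d * Real.log d ^ 2))}.indicator u d := by
  have he := Real.exp_pos 1
  have hτ : 0 < τ := by linarith
  obtain ⟨n₀, hn₀⟩ := eventually_atTop.1 hκ
  set η : ℝ := min (1 / 8) ((rate b τ - r) / (8 * b)) with hη
  have hη0 : 0 < η := lt_min (by norm_num) (div_pos (by linarith) (by positivity))
  have hη8 : η ≤ 1 / 8 := min_le_left _ _
  have hηb : 8 * b * η ≤ rate b τ - r := by
    have h1 : η ≤ (rate b τ - r) / (8 * b) := min_le_right _ _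
    rw [le_div_iff₀ (by positivity)] at h1
    linarith
  set Y : ℝ := 1 + Real.log (2 * τ / b) - 3 * η with hY
  have hlog1 : 0 < Real.log (2 * τ / b) := by
    apply Real.log_pos
    rw [lt_div_iff₀ hb]
    linarith
  have hY0 : 0 < Y := by rw [hY]; linarith
  set C₁ : ℝ := 1 + Y + |Real.log (b / 2)| with hC₁
  have h1 := prog_upper P hE hT (J := fun d => ⌊τ * Real.log (d : ℝ) ^ 2⌋₊ - 1)
    (m := fun d => ⌊b / 2 * Real.log (d : ℝ)⌋₊) (u := u)
    (b := fun d => (d : ℝ) ^ (1 - r)) (D := Set.univ) hu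
    (by
      filter_upwards [tendsto_log_nat.eventually_ge_atTop 8,
        tendsto_log_nat.eventually_ge_atTop (4 / b),
        tendsto_log_nat.eventually_ge_atTop ((2 + b) / (η * τ)),
        tendsto_log_nat.eventually_ge_atTop (2 * |Real.log τ| / η),
        ll_small (η := η / 4) (by positivity),
        ll_small (η := (rate b τ - r) / 4) (by linarith),
        tendsto_log_nat.eventually_ge_atTop (4 * C₁ / (rate b τ - r)),
        tendsto_ll.eventually_ge_atTop 0, eventually_ge_atTop n₀, eventually_ge_atTop 3]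
        with d hl8 hlb hlη hlτ hll1 hll2 hlC hll0 hdn hd3
      intro _
      set ℓ := Real.log (d : ℝ) with hℓ
      set ℓ₂ := Real.log ℓ with hℓ₂
      have hdR : (3:ℝ) ≤ d := by exact_mod_cast hd3
      have hd0 : (0:ℝ) < d := by linarith
      have hℓ0 : 0 < ℓ := by linarith
      have hg1 : 2 ≤ b / 2 * ℓ := by
        rw [div_le_iff₀ hb] at hlb
        linarith
      set M : ℕ := ⌊b / 2 * ℓ⌋₊ with hM
      have hM1 : (M : ℝ) ≤ b / 2 * ℓ := Nat.floor_le (by linarith)
      have hM2 : b / 2 * ℓ - 1 < M := Nat.sub_one_lt_floor _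
      have hM10 : 1 ≤ M := Nat.le_floor (by push_cast; linarith)
      have hM0 : (1:ℝ) ≤ M := by exact_mod_cast hM10
      set X : ℝ := τ * ℓ ^ 2 with hX
      have hX0 : 0 < X := by positivity
      have hXη : 2 + b * ℓ ≤ η * X := by
        rw [div_le_iff₀ (by positivity)] at hlη
        have h2 : (2 + b) * ℓ ≤ ℓ * (η * τ) * ℓ := mul_le_mul_of_nonneg_right hlη hℓ0.le
        have h3 : η * X = ℓ * (η * τ) * ℓ := by rw [hX]; ring
        nlinarith
      have hηX : η * X ≤ X / 8 := by nlinarith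
      have hfl : (⌊X⌋₊ : ℝ) ≤ X := Nat.floor_le hX0.le
      have hfl2 : X - 1 < ⌊X⌋₊ := Nat.sub_one_lt_floor _
      have hfl1 : 1 ≤ ⌊X⌋₊ := Nat.le_floor (by push_cast; nlinarith)
      have hfl1R : (1:ℝ) ≤ ⌊X⌋₊ := by exact_mod_cast hfl1
      have hcast : ((⌊X⌋₊ - 1 : ℕ) : ℝ) = (⌊X⌋₊ : ℝ) - 1 := by
        rw [Nat.cast_sub hfl1, Nat.cast_one]
      refine ⟨hM10, ?_, fun y hy => ?_, ?_⟩
      · have h2 : ((M + 1 : ℕ) : ℝ) ≤ ⌊X⌋₊ := by push_cast; nlinarith
        have h3 : M + 1 ≤ ⌊X⌋₊ := by exact_mod_cast h2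
        omega
      · have h3 := hn₀ y (by omega)
        have h4 : ℓ ≤ Real.log y := Real.log_le_log hd0 (by exact_mod_cast hy.le)
        have h5 : ((2 * M : ℕ) : ℝ) ≤ κ y := by
          push_cast
          nlinarith
        exact_mod_cast h5
      · rw [hcast]
        have h4 : Real.log ((((⌊X⌋₊ : ℝ) - 1) + 1) * d) ≤ (1 + η) * ℓ := by
          have h5 : (((⌊X⌋₊ : ℝ) - 1) + 1) * d ≤ X * d := by nlinarith
          refine (Real.log_le_log (by nlinarith) h5).trans ?_
          rw [Real.log_mul (by positivity) hd0.ne', hX, Real.log_mul (by positivity)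
            (by positivity), Real.log_pow]
          have h6 : Real.log τ ≤ η / 2 * ℓ := by
            rw [div_le_iff₀ hη0] at hlτ
            have := le_abs_self (Real.log τ)
            linarith
          push_cast
          linarith
        have h7 : (1 - η) * X ≤ ((⌊X⌋₊ : ℝ) - 1) - M + 1 := by nlinarith
        have h40 : 0 ≤ Real.log ((((⌊X⌋₊ : ℝ) - 1) + 1) * d) := by
          apply Real.log_nonneg
          nlinarith
        have h1η : 0 < 1 - η := by linarith
        have h9 : 0 ≤ (M * Real.log ((((⌊X⌋₊ : ℝ) - 1) + 1) * d)) /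
            (Real.exp 1 * (((⌊X⌋₊ : ℝ) - 1) - M + 1)) := by
          apply div_nonneg (by positivity)
          apply mul_nonneg he.le
          exact le_trans (by positivity) h7
        have h8 : (M * Real.log ((((⌊X⌋₊ : ℝ) - 1) + 1) * d)) /
            (Real.exp 1 * (((⌊X⌋₊ : ℝ) - 1) - M + 1)) ≤ Real.exp (-Y) := by
          have h81 : Real.exp (-Y) = b / (2 * τ) / Real.exp 1 * Real.exp (3 * η) := by
            have h82 : b / (2 * τ) = Real.exp (-Real.log (2 * τ / b)) := by
              rw [Real.exp_neg, Real.exp_log (by positivity), inv_div]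
            rw [h82, div_eq_mul_inv, ← Real.exp_neg, ← Real.exp_add, ← Real.exp_add]
            congr 1
            rw [hY]
            ring
          rw [h81]
          have h83 : (1 + η) / (1 - η) ≤ Real.exp (3 * η) := by
            have h84 : 1 + 3 * η ≤ Real.exp (3 * η) := by
              have := Real.add_one_le_exp (3 * η)
              linarith
            refine le_trans ?_ h84
            rw [div_le_iff₀ h1η]
            nlinarith
          calc _ ≤ ((b / 2 * ℓ) * ((1 + η) * ℓ)) / (Real.exp 1 * ((1 - η) * X)) := by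
                apply div_le_div₀ (by positivity) _ (by positivity) _
                · exact mul_le_mul hM1 h4 h40 (by positivity)
                · exact mul_le_mul_of_nonneg_left h7 he.le
            _ = b / (2 * τ) / Real.exp 1 * ((1 + η) / (1 - η)) := by
                rw [hX]
                field_simp
            _ ≤ _ := mul_le_mul_of_nonneg_left h83 (by positivity)
        have h10 := pow_le_pow_left₀ h9 h8 M
        rw [← Real.exp_nat_mul] at h10
        have h11 : (M : ℝ) * (-Y) ≤ -(b / 2 * Y) * ℓ + Y := by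
          nlinarith
        have h21 : Real.exp 1 * M ≤ Real.exp (1 + (Real.log (b / 2) + ℓ₂)) := by
          rw [Real.exp_add, Real.exp_add, hℓ₂, Real.exp_log hℓ0, Real.exp_log (by positivity)]
          exact mul_le_mul_of_nonneg_left hM1 he.le
        calc (d : ℝ) * (Real.exp 1 * M * ((M * Real.log ((((⌊X⌋₊ : ℝ) - 1) + 1) * d)) /
            (Real.exp 1 * (((⌊X⌋₊ : ℝ) - 1) - M + 1))) ^ M) ≤
            Real.exp ℓ * (Real.exp (1 + (Real.log (b / 2) + ℓ₂)) *
              Real.exp (-(b / 2 * Y) * ℓ + Y)) := by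
              rw [hℓ, Real.exp_log hd0, ← hℓ]
              apply mul_le_mul_of_nonneg_left _ hd0.le
              apply mul_le_mul h21 _ (pow_nonneg h9 _) (Real.exp_pos _).le
              exact h10.trans (Real.exp_le_exp.2 h11)
          _ = Real.exp (ℓ + (1 + (Real.log (b / 2) + ℓ₂)) + (-(b / 2 * Y) * ℓ + Y)) := by
              rw [← Real.exp_add, ← Real.exp_add]
              congr 1
              ring
          _ ≤ _ := by
              rw [Real.rpow_def_of_pos hd0, ← hℓ]
              apply Real.exp_le_exp.2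
              have h30 : b / 2 * Y = rate b τ - b / 2 * (3 * η) := by
                rw [hY]
                unfold rate
                ring
              have h31 : C₁ ≤ (rate b τ - r) / 4 * ℓ := by
                rw [div_le_iff₀ (by linarith)] at hlC
                linarith
              have h32 := le_abs_self (Real.log (b / 2))
              rw [h30]
              have h33 : b / 2 * (3 * η) * ℓ ≤ (rate b τ - r) / 4 * ℓ := by
                apply mul_le_mul_of_nonneg_right _ hℓ0.le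
                nlinarith
              rw [hC₁] at h31
              nlinarith)
    hs
  filter_upwards [h1] with ω hω
  refine Summable.of_nonneg_of_le (fun d => Set.indicator_nonneg (fun d _ => hu d) d)
    (fun d => ?_) hω
  apply Set.indicator_le_indicator_of_subset _ (fun d => hu d)
  intro d hd
  refine ⟨Set.mem_univ _, ?_⟩
  unfold Below at hd
  simp only [Set.mem_ofPred_eq, not_forall, not_exists, not_and, not_lt] at hd
  obtain ⟨a, ha1, ha2, _, ha4⟩ := hd
  refine ⟨a, ha1, ha2, fun j hj1 hj2 hjE => ?_⟩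
  have h2 := ha4 j hjE
  have hd1 : 1 < d := by omega
  have hd0 : (0:ℝ) < d := by exact_mod_cast (by omega : 0 < d)
  have h4 : a + j * d < ((⌊τ * Real.log (d : ℝ) ^ 2⌋₊ - 1) + 1) * d := by
    have : j * d ≤ (⌊τ * Real.log (d : ℝ) ^ 2⌋₊ - 1) * d := Nat.mul_le_mul_right _ hj2
    rw [add_mul, one_mul]
    omega
  have h6 : (⌊τ * Real.log (d : ℝ) ^ 2⌋₊ - 1) + 1 = ⌊τ * Real.log (d : ℝ) ^ 2⌋₊ := by omega
  rw [h6] at h4
  have h3 : ((a + j * d : ℕ) : ℝ) < (⌊τ * Real.log (d : ℝ) ^ 2⌋₊ * d : ℕ) := by exact_mod_cast h4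
  push_cast at h3
  have h7 : (⌊τ * Real.log (d : ℝ) ^ 2⌋₊ : ℝ) ≤ τ * Real.log (d : ℝ) ^ 2 :=
    Nat.floor_le (by positivity)
  push_cast at h2
  nlinarith

/-- all moduli -/
theorem log_all {Ω : Type*} [MeasurableSpace Ω] (P : Measure Ω) [IsProbabilityMeasure P]
    {E : ℕ → Set Ω} {κ : ℕ → ℕ} (hE : ∀ n, MeasurableSet (E n))
    (hT : ∀ T : Finset ℕ, (∀ n ∈ T, 3 ≤ n ∧ T.card ≤ κ n) →
      P (⋂ n ∈ T, E n) = ENNReal.ofReal (∏ n ∈ T, 1 / Real.log n))
    {α τ : ℝ} (hα : 0 < α) (hτ : 2 * Lam (α / 2) < τ)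
    (hκ : ∀ α' : ℝ, α' < α → ∀ᶠ n : ℕ in atTop, α' * Real.log n ≤ κ n) :
    ∀ᵐ ω ∂P, ∀ᶠ d : ℕ in atTop, Below {n | ω ∈ E n} d (τ * (d * Real.log d ^ 2)) := by
  have h1 := Lam_ge_one (show 0 < α / 2 by positivity)
  have h2 := rate_of_Lam_lt (a := α / 2) (τ := τ / 2) (by positivity) (by linarith)
  have h3 : rate (2 * min (α / 2) 2) (2 * (τ / 2)) = 2 * rate (min (α / 2) 2) (τ / 2) :=
    rate_smul (by norm_num)
  have h4 : 2 * (τ / 2) = τ := by ring
  rw [h4] at h3
  have hm0 : 0 < min (α / 2) 2 := lt_min (by positivity) (by norm_num)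
  obtain ⟨b, hb0, hb1, hb2⟩ := exists_lt_rate (b₀ := 2 * min (α / 2) 2) (τ := τ) (r := 2)
    (by positivity) (by linarith) (by rw [h3]; linarith)
  have h5 : min (α / 2) 2 ≤ α / 2 := min_le_left _ _
  have h6 : min (α / 2) 2 ≤ 2 := min_le_right _ _
  have h7 := log_upper P hE hT (b := b) (τ := τ) (r := (2 + rate b τ) / 2) hb0 (by linarith)
    (by linarith) (hκ b (by linarith)) (u := fun _ => 1) (fun _ => zero_le_one) (by
      simp only [one_mul]
      exact Real.summable_nat_rpow.2 (by linarith))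
  filter_upwards [h7] with ω hω
  filter_upwards [eventually_not_of_summable hω] with d hd
  exact not_not.1 hd

/-- sparse sets of moduli -/
theorem log_sparse {Ω : Type*} [MeasurableSpace Ω] (P : Measure Ω) [IsProbabilityMeasure P]
    {E : ℕ → Set Ω} {κ : ℕ → ℕ} (hE : ∀ n, MeasurableSet (E n))
    (hT : ∀ T : Finset ℕ, (∀ n ∈ T, 3 ≤ n ∧ T.card ≤ κ n) →
      P (⋂ n ∈ T, E n) = ENNReal.ofReal (∏ n ∈ T, 1 / Real.log n))
    {α τ : ℝ} (hα : 0 < α) (hτ : Lam α < τ)
    (hκ : ∀ α' : ℝ, α' < α → ∀ᶠ n : ℕ in atTop, α' * Real.log n ≤ κ n) {D : Set ℕ}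
    (hD : ∀ ε : ℝ, 0 < ε → Summable fun d : ℕ => D.indicator (fun d => (d : ℝ) ^ (-ε)) d) :
    ∀ᵐ ω ∂P, ∀ᶠ d : ℕ in atTop, d ∈ D →
      Below {n | ω ∈ E n} d (τ * (d * Real.log d ^ 2)) := by
  have h1 := Lam_ge_one hα
  have h2 := rate_of_Lam_lt hα hτ
  have hm0 : 0 < min α 2 := lt_min hα (by norm_num)
  obtain ⟨b, hb0, hb1, hb2⟩ := exists_lt_rate (b₀ := min α 2) (τ := τ) (r := 1)
    hm0 (by linarith) h2
  have h5 : min α 2 ≤ α := min_le_left _ _
  have h6 : min α 2 ≤ 2 := min_le_right _ _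
  have h7 := log_upper P hE hT (b := b) (τ := τ) (r := (1 + rate b τ) / 2) hb0 (by linarith)
    (by linarith) (hκ b (by linarith)) (u := D.indicator fun _ => 1)
    (fun d => Set.indicator_nonneg (fun _ _ => zero_le_one) d) (by
      refine (hD ((rate b τ - 1) / 2) (by linarith)).congr fun d => ?_
      by_cases hdD : d ∈ D
      · rw [Set.indicator_of_mem hdD, Set.indicator_of_mem hdD, one_mul]
        congr 1
        ring
      · rw [Set.indicator_of_notMem hdD, Set.indicator_of_notMem hdD, zero_mul])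
  filter_upwards [h7] with ω hω
  set S : Set ℕ := {d : ℕ | ¬ Below {n | ω ∈ E n} d (τ * (d * Real.log d ^ 2))} with hS
  have h8 : Summable fun d => (S ∩ D).indicator (fun _ => (1:ℝ)) d := by
    refine hω.congr fun d => ?_
    by_cases h9 : d ∈ S
    · rw [Set.indicator_of_mem h9]
      by_cases h6 : d ∈ D
      · rw [Set.indicator_of_mem h6, Set.indicator_of_mem (Set.mem_inter h9 h6)]
      · rw [Set.indicator_of_notMem h6, Set.indicator_of_notMem fun h0 : d ∈ S ∩ D => h6 h0.2]
    · rw [Set.indicator_of_notMem h9, Set.indicator_of_notMem fun h0 : d ∈ S ∩ D => h9 h0.1]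
  filter_upwards [eventually_not_of_summable h8] with d hd
  intro hdD
  by_contra hcon
  exact hd ⟨hcon, hdD⟩

end Q167.PR
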