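import Pool.Agent.Q167.PR.H

/-! # Least elements of residue classes, orders `α log n`: models -/

set_option autoImplicit false

namespace Q167.PR

open Finset MeasureTheory Filter Topology Q198.CI Q167.LI Q167.AN Q167.SQ

/-- the totient exceeds every power less than one -/
lemma tot_pow {η : ℝ} (hη : 0 < η) :
    ∀ᶠ d : ℕ in atTop, 2 * (d : ℝ) ^ (1 - η) ≤ d.totient := by
  have h0 : ∀ᶠ d : ℕ in atTop, 6 * Real.log d ≤ (d : ℝ) ^ η := by
    have h1 : Tendsto (fun d : ℕ => Real.log d / (d : ℝ) ^ η) atTop (𝓝 0) :=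
      (isLittleO_log_rpow_atTop hη).tendsto_div_nhds_zero.comp
        tendsto_natCast_atTop_atTop
    filter_upwards [h1.eventually_lt_const (show (0:ℝ) < 1 / 6 by positivity),
      eventually_ge_atTop 1] with d hd hd1
    have hd0 : (0:ℝ) < d := by exact_mod_cast hd1
    rw [div_lt_iff₀ (by positivity)] at hd
    linarith
  filter_upwards [h0, tot_lower, eventually_ge_atTop 3] with d h1 h2 hd3
  have hdR : (3:ℝ) ≤ d := by exact_mod_cast hd3
  have hd0 : (0:ℝ) < d := by linarith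
  have hlog : 0 < Real.log (d : ℝ) := Real.log_pos (by linarith)
  have h3 : (d : ℝ) ^ (1 - η) ≤ d / (6 * Real.log d) := by
    rw [le_div_iff₀ (by positivity)]
    calc (d : ℝ) ^ (1 - η) * (6 * Real.log d) ≤ (d : ℝ) ^ (1 - η) * (d : ℝ) ^ η :=
          mul_le_mul_of_nonneg_left h1 (by positivity)
      _ = d := by
          rw [← Real.rpow_add hd0]
          norm_num
  linarith [h2.1]

/-- the mass of the empty set for orders `a log d` -/
theorem mass_log {a τ : ℝ} (ha : 0 < a) (haτ : a < 2 * τ) (hrate : rate a τ < 1) :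
    ∀ᶠ d : ℕ in atTop, ∃ δ : ℝ, 0 ≤ δ ∧ 1 ≤ ((d.totient : ℝ) / 2 - 1) * δ ∧
      ∀ a', d.totient ≤ 2 * a' → a' < d →
        ∃ w : Finset ℕ → ℝ, IsLaw (cls0 (⌊τ * Real.log (d : ℝ) ^ 2⌋₊ - 1) d a')
          (2 * ⌈a / 2 * Real.log (d : ℝ)⌉₊ + 1) cp w ∧ δ ≤ w ∅ := by
  have he := Real.exp_pos 1
  have hτ : 0 < τ := by linarith
  set η : ℝ := min (1 / 16) ((1 - rate a τ) / (16 * a)) with hη
  have hη0 : 0 < η := lt_min (by norm_num) (div_pos (by linarith) (by positivity))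
  have hη8 : η ≤ 1 / 16 := min_le_left _ _
  have hηa : 16 * a * η ≤ 1 - rate a τ := by
    have h1 : η ≤ (1 - rate a τ) / (16 * a) := min_le_right _ _
    rw [le_div_iff₀ (by positivity)] at h1
    linarith
  set σ : ℝ := (1 - a / (2 * τ)) / 2 with hσ
  have haτ1 : a / (2 * τ) < 1 := by
    rw [div_lt_one (by positivity)]
    exact haτ
  have haτ0 : 0 < a / (2 * τ) := by positivity
  have hσ0 : 0 < σ := by rw [hσ]; linarith
  have hσ1 : σ < 1 := by rw [hσ]; linarith
  have hlog1 : 0 < Real.log (2 * τ / a) := by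
    apply Real.log_pos
    rw [lt_div_iff₀ ha]
    linarith
  set Z : ℝ := 1 + Real.log (2 * τ / a) + 4 * η with hZ
  set C₁ : ℝ := Z + |Real.log (192 / σ)| with hC₁
  set gap : ℝ := τ - a / 2 with hgap
  have hgap0 : 0 < gap := by rw [hgap]; linarith
  have hσgap : (1 - σ) * τ = a / 2 + gap / 2 := by
    rw [hσ, hgap]
    field_simp
    ring
  filter_upwards [tendsto_log_nat.eventually_ge_atTop (2 * (1 + 8 / σ)),
    tendsto_log_nat.eventually_ge_atTop (4 / gap), tendsto_log_nat.eventually_ge_atTop (1 / η),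
    tendsto_log_nat.eventually_ge_atTop (4 * C₁ / (1 - rate a τ)),
    tendsto_log_nat.eventually_ge_atTop (1 + 1 / τ),
    ll_small (η := (1 - rate a τ) / 4) (by linarith), tendsto_ll.eventually_ge_atTop 0,
    tot_lower, tot_pow hη0, eventually_ge_atTop 9]
    with d hlσ hlgap hlη hlC hlτ hll hll0 htot htotp hd9
  set ℓ := Real.log (d : ℝ) with hℓ
  set ℓ₂ := Real.log ℓ with hℓ₂
  have hdR : (9:ℝ) ≤ d := by exact_mod_cast hd9
  have hd0 : (0:ℝ) < d := by linarith
  have h1τ : 0 < 1 / τ := by positivity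
  have hℓ1 : 1 ≤ ℓ := by linarith
  have hℓ0 : 0 < ℓ := by linarith
  set m : ℕ := ⌈a / 2 * ℓ⌉₊ with hm
  have hg0 : 0 < a / 2 * ℓ := by positivity
  have hm1 : a / 2 * ℓ ≤ m := Nat.le_ceil _
  have hm2 : (m : ℝ) < a / 2 * ℓ + 1 := Nat.ceil_lt_add_one hg0.le
  have hm10 : 1 ≤ m := Nat.ceil_pos.2 hg0
  have hm0 : (1:ℝ) ≤ m := by exact_mod_cast hm10
  set X : ℝ := τ * ℓ ^ 2 with hX
  have hX0 : 0 < X := by positivity
  have hX1 : 1 ≤ X := by
    have h1 : 1 ≤ τ * ℓ := by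
      have h2 : τ * (1 / τ) = 1 := mul_one_div_cancel hτ.ne'
      nlinarith
    rw [hX]
    nlinarith
  have hfl : (⌊X⌋₊ : ℝ) ≤ X := Nat.floor_le (by positivity)
  have hfl2 : X - 1 < ⌊X⌋₊ := Nat.sub_one_lt_floor _
  have hfl1 : 1 ≤ ⌊X⌋₊ := Nat.le_floor (by push_cast; exact hX1)
  have hfl1R : (1:ℝ) ≤ ⌊X⌋₊ := by exact_mod_cast hfl1
  have hηℓ : 1 ≤ η * ℓ := by
    rw [div_le_iff₀ hη0] at hlη
    linarith
  set L : ℝ := (1 - η) * ℓ with hL
  have hL2 : (1 - 2 * η) * ℓ ≤ L - 1 := by rw [hL]; linarith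
  have hη2 : 0 < 1 - 2 * η := by linarith
  have hLm1 : 0 < L - 1 := lt_of_lt_of_le (by positivity) hL2
  have hbase0 : 0 < Real.exp 1 * (⌊X⌋₊ : ℝ) / (m * (L - 1)) := by positivity
  refine ⟨σ / 32 / (Real.exp 1 * (⌊X⌋₊ : ℝ) / (m * (L - 1))) ^ m, by positivity, ?_, ?_⟩
  · have hbase : Real.exp 1 * (⌊X⌋₊ : ℝ) / (m * (L - 1)) ≤ Real.exp Z := by
      have h1 : Real.exp Z = Real.exp 1 * (2 * τ / a) * Real.exp (4 * η) := by
        rw [hZ, Real.exp_add, Real.exp_add, Real.exp_log (by positivity)]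
      rw [h1]
      have h3 : a / 2 * ℓ * ((1 - 2 * η) * ℓ) ≤ m * (L - 1) :=
        mul_le_mul hm1 hL2 (by positivity) (by linarith)
      have h4 : 1 / (1 - 2 * η) ≤ Real.exp (4 * η) := by
        have h5 : 1 + 4 * η ≤ Real.exp (4 * η) := by
          have := Real.add_one_le_exp (4 * η)
          linarith
        refine le_trans ?_ h5
        rw [div_le_iff₀ hη2]
        nlinarith
      calc _ ≤ (Real.exp 1 * X) / (a / 2 * ℓ * ((1 - 2 * η) * ℓ)) := by
            apply div_le_div₀ (by positivity) _ (by positivity) h3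
            exact mul_le_mul_of_nonneg_left hfl he.le
        _ = Real.exp 1 * (2 * τ / a) * (1 / (1 - 2 * η)) := by
            rw [hX]
            field_simp
        _ ≤ _ := mul_le_mul_of_nonneg_left h4 (by positivity)
    have h4 := pow_le_pow_left₀ hbase0.le hbase m
    rw [← Real.exp_nat_mul] at h4
    have hZ0 : 0 ≤ Z := by rw [hZ]; linarith
    have h5 : (m : ℝ) * Z ≤ (rate a τ + 2 * a * η) * ℓ + Z := by
      have h6 : (m : ℝ) * Z ≤ (a / 2 * ℓ + 1) * Z := mul_le_mul_of_nonneg_right hm2.le hZ0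
      refine h6.trans (le_of_eq ?_)
      rw [hZ]
      unfold rate
      ring
    have h11 : (Real.exp 1 * (⌊X⌋₊ : ℝ) / (m * (L - 1))) ^ m ≤
        Real.exp ((rate a τ + 2 * a * η) * ℓ + Z) := h4.trans (Real.exp_le_exp.2 h5)
    have h12 : σ / 32 / Real.exp ((rate a τ + 2 * a * η) * ℓ + Z) ≤
        σ / 32 / (Real.exp 1 * (⌊X⌋₊ : ℝ) / (m * (L - 1))) ^ m :=
      div_le_div_of_nonneg_left (by positivity) (by positivity) h11
    have h13 : 192 / σ * ℓ * Real.exp ((rate a τ + 2 * a * η) * ℓ + Z) ≤ d := by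
      have h15 : 192 / σ * ℓ = Real.exp (Real.log (192 / σ) + ℓ₂) := by
        rw [Real.exp_add, Real.exp_log (by positivity), hℓ₂, Real.exp_log hℓ0]
      have h16 : (d : ℝ) = Real.exp ℓ := by rw [hℓ, Real.exp_log hd0]
      rw [h15, h16, ← Real.exp_add]
      apply Real.exp_le_exp.2
      have h17 : C₁ ≤ (1 - rate a τ) / 4 * ℓ := by
        rw [div_le_iff₀ (by linarith)] at hlC
        linarith
      have h18 := le_abs_self (Real.log (192 / σ))
      have h19 : 2 * a * η * ℓ ≤ (1 - rate a τ) / 4 * ℓ := by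
        apply mul_le_mul_of_nonneg_right _ hℓ0.le
        linarith
      rw [hC₁] at h17
      nlinarith
    calc (1:ℝ) ≤ (d : ℝ) / (6 * ℓ) * (σ / 32 / Real.exp ((rate a τ + 2 * a * η) * ℓ + Z)) := by
          have h17 : (d : ℝ) / (6 * ℓ) * (σ / 32 / Real.exp ((rate a τ + 2 * a * η) * ℓ + Z)) =
              d / (192 / σ * ℓ * Real.exp ((rate a τ + 2 * a * η) * ℓ + Z)) := by
            field_simp
            norm_num
          rw [h17, le_div_iff₀ (by positivity), one_mul]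
          exact h13
      _ ≤ _ := mul_le_mul htot.1 h12 (by positivity) (le_trans (by positivity) htot.1)
  · intro a' ha1 ha2
    have hcard : (cls0 (⌊X⌋₊ - 1) d a').card = ⌊X⌋₊ := by
      rw [card_cls0 (by omega)]
      omega
    have hR3 : (3:ℝ) ≤ (d : ℝ) ^ (1 - η) := by
      have h18 : ((9:ℝ)) ^ (1 / 2 : ℝ) = 3 := by
        rw [show (9:ℝ) = 3 ^ (2:ℝ) by norm_num, ← Real.rpow_mul (by norm_num)]
        norm_num
      rw [← h18]
      exact (Real.rpow_le_rpow (by norm_num) hdR (by norm_num)).trans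
        (Real.rpow_le_rpow_of_exponent_le (by linarith) (by linarith))
    have h19 := mass_growing (I := cls0 (⌊X⌋₊ - 1) d a') (m := m) (L := L) (σ := σ) hm10
      hσ0 hσ1 (by
        rw [hL]
        nlinarith) (by
        rw [hcard]
        have h20 : (m : ℝ) * L ≤ (a / 2 * ℓ + 1) * ℓ := by
          apply mul_le_mul hm2.le _ (by linarith) (by positivity)
          rw [hL]
          nlinarith
        have h21 : (1 - σ) * (X - 1) ≤ (1 - σ) * (⌊X⌋₊ : ℝ) :=
          mul_le_mul_of_nonneg_left hfl2.le (by linarith)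
        have h22 : (1 - σ) * X = (a / 2 + gap / 2) * ℓ ^ 2 := by
          rw [hX, ← mul_assoc, hσgap]
        have h23 : 2 * ℓ ≤ gap / 2 * ℓ ^ 2 := by
          rw [div_le_iff₀ hgap0] at hlgap
          nlinarith
        nlinarith) (by
        intro y hy
        have h21 := cls0_large hR3 htotp ha1 hy
        rw [Real.log_rpow hd0] at h21
        exact h21)
    rw [hcard] at h19
    exact h19

/-- the mass of the empty set for full independence -/
theorem mass_ind {τ : ℝ} (hτ : 0 < τ) (hτ1 : τ < 1) :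
    ∀ᶠ d : ℕ in atTop, ∀ K : ℕ, ∃ δ : ℝ, 0 ≤ δ ∧ 1 ≤ ((d.totient : ℝ) / 2 - 1) * δ ∧
      ∀ a', d.totient ≤ 2 * a' → a' < d →
        ∃ w : Finset ℕ → ℝ, IsLaw (cls0 (⌊τ * Real.log (d : ℝ) ^ 2⌋₊ - 1) d a') K cp w ∧
          δ ≤ w ∅ := by
  set η : ℝ := (1 - τ) / 8 with hη
  have hη0 : 0 < η := by rw [hη]; linarith
  have hη8 : η ≤ 1 / 8 := by rw [hη]; linarith
  filter_upwards [tendsto_log_nat.eventually_ge_atTop (1 / η),
    tendsto_log_nat.eventually_ge_atTop (1 + 1 / τ),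
    ll_small (η := η) hη0, tendsto_log_nat.eventually_ge_atTop (Real.log 6 / η),
    tot_lower, tot_pow hη0, eventually_ge_atTop 9]
    with d hlη hlτ hll hl6 htot htotp hd9
  intro K
  set ℓ := Real.log (d : ℝ) with hℓ
  set ℓ₂ := Real.log ℓ with hℓ₂
  have hdR : (9:ℝ) ≤ d := by exact_mod_cast hd9
  have hd0 : (0:ℝ) < d := by linarith
  have h1τ : 0 < 1 / τ := by positivity
  have hℓ1 : 1 ≤ ℓ := by linarith
  have hℓ0 : 0 < ℓ := by linarith
  set X : ℝ := τ * ℓ ^ 2 with hX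
  have hX0 : 0 < X := by positivity
  have hX1 : 1 ≤ X := by
    have h1 : 1 ≤ τ * ℓ := by
      have h2 : τ * (1 / τ) = 1 := mul_one_div_cancel hτ.ne'
      nlinarith
    rw [hX]
    nlinarith
  have hfl : (⌊X⌋₊ : ℝ) ≤ X := Nat.floor_le (by positivity)
  have hfl1 : 1 ≤ ⌊X⌋₊ := Nat.le_floor (by push_cast; exact hX1)
  have hηℓ : 1 ≤ η * ℓ := by
    rw [div_le_iff₀ hη0] at hlη
    linarith
  set L : ℝ := (1 - η) * ℓ with hL
  have hL2 : (1 - 2 * η) * ℓ ≤ L - 1 := by rw [hL]; linarith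
  have hη2 : 0 < 1 - 2 * η := by linarith
  have hLm1 : 0 < L - 1 := lt_of_lt_of_le (by positivity) hL2
  refine ⟨Real.exp (-((⌊X⌋₊ : ℝ) / (L - 1))), (Real.exp_pos _).le, ?_, ?_⟩
  · have h1 : (⌊X⌋₊ : ℝ) / (L - 1) ≤ (1 - 2 * η) * ℓ := by
      have h2 : (⌊X⌋₊ : ℝ) / (L - 1) ≤ X / ((1 - 2 * η) * ℓ) :=
        div_le_div₀ hX0.le hfl (by positivity) hL2
      refine h2.trans ?_
      rw [div_le_iff₀ (by positivity), hX]
      have h3 : τ ≤ (1 - 2 * η) * (1 - 2 * η) := by
        have : τ = 1 - 8 * η := by rw [hη]; ring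
        nlinarith
      have h4 : 0 < ℓ ^ 2 := by positivity
      nlinarith
    have h5 : Real.exp (-((1 - 2 * η) * ℓ)) ≤ Real.exp (-((⌊X⌋₊ : ℝ) / (L - 1))) :=
      Real.exp_le_exp.2 (by linarith)
    have h6 : 6 * ℓ ≤ Real.exp (2 * η * ℓ) := by
      have h7 : Real.log 6 + ℓ₂ ≤ 2 * η * ℓ := by
        rw [div_le_iff₀ hη0] at hl6
        linarith
      have h8 : 6 * ℓ = Real.exp (Real.log 6 + ℓ₂) := by
        rw [Real.exp_add, Real.exp_log (by norm_num), hℓ₂, Real.exp_log hℓ0]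
      rw [h8]
      exact Real.exp_le_exp.2 h7
    calc (1:ℝ) ≤ (d : ℝ) / (6 * ℓ) * Real.exp (-((1 - 2 * η) * ℓ)) := by
          have h9 : (d : ℝ) / (6 * ℓ) * Real.exp (-((1 - 2 * η) * ℓ)) =
              Real.exp (2 * η * ℓ) / (6 * ℓ) := by
            have h10 : (d : ℝ) = Real.exp ℓ := by rw [hℓ, Real.exp_log hd0]
            rw [h10, div_mul_eq_mul_div, ← Real.exp_add]
            congr 2
            ring
          rw [h9, le_div_iff₀ (by positivity), one_mul]
          exact h6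
      _ ≤ _ := mul_le_mul htot.1 h5 (Real.exp_pos _).le (le_trans (by positivity) htot.1)
  · intro a' ha1 ha2
    have hcard : (cls0 (⌊X⌋₊ - 1) d a').card = ⌊X⌋₊ := by
      rw [card_cls0 (by omega)]
      omega
    have hR3 : (3:ℝ) ≤ (d : ℝ) ^ (1 - η) := by
      have h18 : ((9:ℝ)) ^ (1 / 2 : ℝ) = 3 := by
        rw [show (9:ℝ) = 3 ^ (2:ℝ) by norm_num, ← Real.rpow_mul (by norm_num)]
        norm_num
      rw [← h18]
      exact (Real.rpow_le_rpow (by norm_num) hdR (by norm_num)).trans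
        (Real.rpow_le_rpow_of_exponent_le (by linarith) (by linarith))
    have h19 := block_indep (I := cls0 (⌊X⌋₊ - 1) d a') (L := L) K (by linarith) (by
        intro y hy
        have h21 := cls0_large hR3 htotp ha1 hy
        rw [Real.log_rpow hd0] at h21
        exact h21)
    rw [hcard] at h19
    exact h19

end Q167.PR
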