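import Pool.Agent.Q167.PR.I

/-! # Least elements of residue classes, orders `α log n`: constructions -/

set_option autoImplicit false

namespace Q167.PR

open Finset MeasureTheory Filter Topology Q198.CI Q167.LI Q167.AN Q167.SQ

/-- upper bounds for the order in a block -/
lemma kappa_le_log {κ : ℕ → ℕ} {c' c₁ τ : ℝ} (hc' : 0 < c') (hc : c' < c₁) (hτ : 0 < τ)
    (hκ : ∀ᶠ n : ℕ in atTop, (κ n : ℝ) ≤ c' * Real.log n) :
    ∀ᶠ d : ℕ in atTop, ∀ n ≤ ⌊τ * Real.log (d : ℝ) ^ 2⌋₊ * d,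
      κ n ≤ 2 * ⌈c₁ / 2 * Real.log (d : ℝ)⌉₊ + 1 := by
  obtain ⟨n₀, hn₀⟩ := eventually_atTop.1 (hκ.and (eventually_ge_atTop 1))
  set η : ℝ := (c₁ - c') / c' with hη
  have hη0 : 0 < η := div_pos (by linarith) hc'
  filter_upwards [tendsto_log_nat.eventually_ge_atTop ((∑ n ∈ range n₀, κ n : ℕ) / c₁),
    ll_small (η := η / 4) (by positivity),
    tendsto_log_nat.eventually_ge_atTop (2 * |Real.log τ| / η),
    tendsto_log_nat.eventually_ge_atTop 1, eventually_ge_atTop 3] with d hd hll hlτ hl1 hd3 n hn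
  have hdR : (3:ℝ) ≤ d := by exact_mod_cast hd3
  have hd0 : (0:ℝ) < d := by linarith
  set ℓ := Real.log (d : ℝ) with hℓ
  set ℓ₂ := Real.log ℓ with hℓ₂
  have hℓ0 : 0 < ℓ := by linarith
  have hc1 : 0 < c₁ := by linarith
  have hceil : c₁ * ℓ ≤ ((2 * ⌈c₁ / 2 * ℓ⌉₊ + 1 : ℕ) : ℝ) := by
    have := Nat.le_ceil (c₁ / 2 * ℓ)
    push_cast
    linarith
  have key : (κ n : ℝ) ≤ c₁ * ℓ := by
    rcases lt_or_ge n n₀ with h | h
    · have h1 : κ n ≤ ∑ n ∈ range n₀, κ n :=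
        single_le_sum (fun i _ => Nat.zero_le _) (mem_range.2 h)
      have h2 : ((∑ n ∈ range n₀, κ n : ℕ) : ℝ) ≤ c₁ * ℓ := by
        rw [div_le_iff₀ hc1] at hd
        linarith
      exact le_trans (by exact_mod_cast h1) h2
    · obtain ⟨h1, h2⟩ := hn₀ n h
      refine h1.trans ?_
      have hn0 : 0 < n := h2
      have h3 : Real.log n ≤ (1 + η) * ℓ := by
        have h4 : (n : ℝ) ≤ τ * ℓ ^ 2 * d := by
          have h5 : (n : ℝ) ≤ (⌊τ * ℓ ^ 2⌋₊ : ℝ) * d := by exact_mod_cast hn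
          have h6 : (⌊τ * ℓ ^ 2⌋₊ : ℝ) ≤ τ * ℓ ^ 2 := Nat.floor_le (by positivity)
          nlinarith
        have h7 := Real.log_le_log (by exact_mod_cast hn0) h4
        rw [Real.log_mul (by positivity) hd0.ne', Real.log_mul (by positivity) (by positivity),
          Real.log_pow] at h7
        have h8 : Real.log τ ≤ η / 2 * ℓ := by
          rw [div_le_iff₀ hη0] at hlτ
          have := le_abs_self (Real.log τ)
          linarith
        push_cast at h7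
        linarith
      have h9 : c' * (1 + η) = c₁ := by
        rw [hη]
        field_simp
        ring
      calc c' * Real.log n ≤ c' * ((1 + η) * ℓ) := mul_le_mul_of_nonneg_left h3 hc'.le
        _ = c₁ * ℓ := by rw [← mul_assoc, h9]
  exact_mod_cast key.trans hceil

/-- orders which are small infinitely often are small on blocks -/
lemma freq_small_log {κ : ℕ → ℕ} (hmono : Monotone κ)
    (h : ∀ c : ℝ, 0 < c → ∃ᶠ n : ℕ in atTop, (κ n : ℝ) < c * Real.log n) {c τ : ℝ} (hc : 0 < c)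
    (hτ : 0 < τ) :
    ∃ᶠ d : ℕ in atTop, (κ (⌊τ * Real.log (d : ℝ) ^ 2⌋₊ * d) : ℝ) ≤ c * Real.log d := by
  have hpow : ∀ᶠ d : ℕ in atTop, τ * Real.log (d : ℝ) ^ 2 ≤ d := by
    have h1 : Tendsto (fun d : ℕ => Real.log d / (d : ℝ) ^ (1 / 2 : ℝ)) atTop (𝓝 0) :=
      (isLittleO_log_rpow_atTop (by positivity)).tendsto_div_nhds_zero.comp
        tendsto_natCast_atTop_atTop
    filter_upwards [h1.eventually_lt_const (show (0:ℝ) < 1 / (τ + 1) by positivity),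
      eventually_ge_atTop 1] with d hd hd1
    have hd0 : (0:ℝ) < d := by exact_mod_cast hd1
    have hroot : (d : ℝ) ^ (1 / 2 : ℝ) * (d : ℝ) ^ (1 / 2 : ℝ) = d := by
      rw [← Real.rpow_add hd0]
      norm_num
    rw [div_lt_iff₀ (by positivity)] at hd
    have h2 : 0 ≤ Real.log (d : ℝ) := Real.log_nonneg (by exact_mod_cast hd1)
    have h3 := mul_le_mul hd.le hd.le h2 (by positivity)
    have h4 : 1 / (τ + 1) * (d : ℝ) ^ (1 / 2 : ℝ) * (1 / (τ + 1) * (d : ℝ) ^ (1 / 2 : ℝ)) =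
        1 / (τ + 1) ^ 2 * d := by
      calc _ = 1 / (τ + 1) ^ 2 * ((d : ℝ) ^ (1 / 2 : ℝ) * (d : ℝ) ^ (1 / 2 : ℝ)) := by
            field_simp
        _ = _ := by rw [hroot]
    rw [h4] at h3
    have h5 : τ * (Real.log (d : ℝ) * Real.log d) ≤ τ * (1 / (τ + 1) ^ 2 * d) :=
      mul_le_mul_of_nonneg_left h3 hτ.le
    have h6 : τ * (1 / (τ + 1) ^ 2) ≤ 1 := by
      rw [mul_one_div, div_le_one (by positivity)]
      nlinarith
    nlinarith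
  obtain ⟨d₀, hd₀⟩ := eventually_atTop.1 (hpow.and ((tendsto_log_nat.eventually_ge_atTop 1).and
    (eventually_ge_atTop 3)))
  rw [frequently_atTop]
  intro N
  obtain ⟨n, hn1, hn2⟩ := (h (c / 4) (by positivity)).forall_exists_of_atTop
    ((max N d₀ + 1) ^ 2)
  set d := Nat.sqrt n with hd
  have hdN : max N d₀ ≤ d := by
    rw [hd, Nat.le_sqrt']
    refine le_trans ?_ hn1
    exact Nat.pow_le_pow_left (by omega) 2
  obtain ⟨h1, h3, h4⟩ := hd₀ d ((le_max_right _ _).trans hdN)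
  refine ⟨d, (le_max_left _ _).trans hdN, ?_⟩
  have hdR : (3:ℝ) ≤ d := by exact_mod_cast h4
  have hd0 : (0:ℝ) < d := by linarith
  set ℓ := Real.log (d : ℝ) with hℓ
  have hℓ0 : 0 < ℓ := by linarith
  have htop : ⌊τ * ℓ ^ 2⌋₊ * d ≤ n := by
    have h5 : ⌊τ * ℓ ^ 2⌋₊ ≤ d := by
      have h6 : (⌊τ * ℓ ^ 2⌋₊ : ℝ) ≤ d := (Nat.floor_le (by positivity)).trans h1
      exact_mod_cast h6
    exact (Nat.mul_le_mul_right _ h5).trans (Nat.sqrt_le n)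
  have h7 : (κ (⌊τ * ℓ ^ 2⌋₊ * d) : ℝ) ≤ κ n := by exact_mod_cast hmono htop
  refine h7.trans (hn2.le.trans ?_)
  have hn0 : (0:ℝ) < n := by
    have : d ≤ n := Nat.sqrt_le_self n
    exact_mod_cast (by omega : 0 < n)
  have h8 : Real.log n ≤ 4 * ℓ := by
    have h9 : n ≤ d ^ 4 := by
      have h10 : n ≤ (d + 1) ^ 2 := (Nat.lt_succ_sqrt' n).le
      nlinarith [Nat.pow_le_pow_left (show d + 1 ≤ d ^ 2 by nlinarith) 2]
    have h11 : (n : ℝ) ≤ (d : ℝ) ^ 4 := by exact_mod_cast h9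
    have h12 := Real.log_le_log hn0 h11
    rw [Real.log_pow] at h12
    push_cast at h12
    exact h12
  nlinarith

/-- the constants below `Λ(α)` -/
lemma level_log {κ : ℕ → ℕ} {α : ℝ} (hα : 0 < α)
    (hκ : ∀ α' : ℝ, α < α' → ∀ᶠ n : ℕ in atTop, (κ n : ℝ) ≤ α' * Real.log n) {ε : ℝ}
    (hε : 0 < ε) : ∃ τ : ℝ, 0 < τ ∧ Lam α - ε ≤ τ ∧ ∀ᶠ d : ℕ in atTop, ∃ (K : ℕ) (δ : ℝ),
      (∀ n ≤ ⌊τ * Real.log (d : ℝ) ^ 2⌋₊ * d, κ n ≤ K) ∧ 0 ≤ δ ∧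
      1 ≤ ((d.totient : ℝ) / 2 - 1) * δ ∧ ∀ a', d.totient ≤ 2 * a' → a' < d →
        ∃ w : Finset ℕ → ℝ, IsLaw (cls0 (⌊τ * Real.log (d : ℝ) ^ 2⌋₊ - 1) d a') K cp w ∧
          δ ≤ w ∅ := by
  have hL1 := Lam_ge_one hα
  rcases lt_or_ge 1 (Lam α) with h | h
  · set τ : ℝ := max 1 (Lam α - ε) with hτ
    have h1 : 1 ≤ τ := le_max_left _ _
    have h2 : τ < Lam α := max_lt h (by linarith)
    obtain ⟨h3, h4, h5⟩ := rate_of_lt_Lam hα h1 h2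
    have h6 : ContinuousAt (fun b : ℝ => rate b τ) α := by
      unfold rate
      apply ContinuousAt.mul (by fun_prop)
      apply ContinuousAt.add continuousAt_const
      apply ContinuousAt.log
      · exact ContinuousAt.div continuousAt_const continuousAt_id hα.ne'
      · positivity
    have h7 : ∀ᶠ b in 𝓝[>] α, rate b τ < 1 ∧ b < 2 ∧ α < b := by
      filter_upwards [nhdsWithin_le_nhds (h6.eventually (gt_mem_nhds h5)),
        nhdsWithin_le_nhds (gt_mem_nhds h3), self_mem_nhdsWithin] with b h8 h9 h10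
      exact ⟨h8, h9, h10⟩
    obtain ⟨b, h8, h9, h10⟩ := h7.exists
    refine ⟨τ, by linarith, le_max_right _ _, ?_⟩
    filter_upwards [mass_log (a := b) (τ := τ) (by linarith) (by linarith) h8,
      kappa_le_log (κ := κ) (c' := (α + b) / 2) (c₁ := b) (τ := τ) (by linarith) (by linarith)
        (by linarith) (hκ _ (by linarith))] with d h11 h12
    obtain ⟨δ, h13, h14, h15⟩ := h11
    exact ⟨_, δ, h12, h13, h14, h15⟩
  · have hL : Lam α = 1 := le_antisymm h hL1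
    set τ : ℝ := max (1 / 2) (1 - ε) with hτ
    have h1 : 1 / 2 ≤ τ := le_max_left _ _
    have h2 : τ < 1 := max_lt (by norm_num) (by linarith)
    refine ⟨τ, by linarith, by rw [hL]; exact le_max_right _ _, ?_⟩
    filter_upwards [mass_ind (τ := τ) (by linarith) h2] with d h3
    obtain ⟨δ, h4, h5, h6⟩ := h3 (∑ n ∈ range (⌊τ * Real.log (d : ℝ) ^ 2⌋₊ * d + 1), κ n)
    refine ⟨_, δ, ?_, h4, h5, h6⟩
    intro n hn
    exact single_le_sum (f := κ) (fun i _ => Nat.zero_le _) (mem_range.2 (by omega))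

/-- a model with empty classes at the sharp constant -/
theorem log_lower {κ : ℕ → ℕ} {α : ℝ} (hα : 0 < α)
    (hκ : ∀ α' : ℝ, α < α' → ∀ᶠ n : ℕ in atTop, (κ n : ℝ) ≤ α' * Real.log n) {D : Set ℕ}
    (hD : D.Infinite) :
    ∃ (Ω : Type) (_ : MeasurableSpace Ω) (P : Measure Ω) (_ : IsProbabilityMeasure P)
      (E : ℕ → Set Ω), (∀ n, MeasurableSet (E n)) ∧
      (∀ T : Finset ℕ, (∀ n ∈ T, 3 ≤ n ∧ T.card ≤ κ n) →
        P (⋂ n ∈ T, E n) = ENNReal.ofReal (∏ n ∈ T, 1 / Real.log n)) ∧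
      ∀ᵐ ω ∂P, ∀ ε : ℝ, 0 < ε → ∃ᶠ d : ℕ in atTop, d ∈ D ∧
        ¬ Below {n | ω ∈ E n} d ((Lam α - ε) * (d * Real.log d ^ 2)) := by
  have hlev : ∀ i : ℕ, ∃ τ : ℝ, 0 < τ ∧ Lam α - 1 / ((i : ℝ) + 1) ≤ τ ∧
      ∀ᶠ d : ℕ in atTop, ∃ (K : ℕ) (δ : ℝ),
      (∀ n ≤ ⌊τ * Real.log (d : ℝ) ^ 2⌋₊ * d, κ n ≤ K) ∧ 0 ≤ δ ∧
      1 ≤ ((d.totient : ℝ) / 2 - 1) * δ ∧ ∀ a', d.totient ≤ 2 * a' → a' < d →
        ∃ w : Finset ℕ → ℝ, IsLaw (cls0 (⌊τ * Real.log (d : ℝ) ^ 2⌋₊ - 1) d a') K cp w ∧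
          δ ≤ w ∅ := fun i => level_log hα hκ (by positivity)
  choose τ hτ0 hτ1 hτ2 using hlev
  obtain ⟨Ω, mΩ, P, hP, E, hE, hT, hae⟩ := prog_model_seq (κ := κ)
    (J := fun i d => ⌊τ i * Real.log (d : ℝ) ^ 2⌋₊ - 1) (D := D)
    (by
      intro i
      refine ((Nat.frequently_atTop_iff_infinite.2 hD).and_eventually
        ((hτ2 i).and ((tendsto_log_nat.eventually_ge_atTop (1 + 1 / τ i))))).mono ?_
      rintro d ⟨hdD, ⟨K, δ, h1, h2, h3, h4⟩, h5⟩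
      refine ⟨hdD, K, δ, ?_, h2, h3, h4⟩
      have h0 := hτ0 i
      have h6 : 1 ≤ ⌊τ i * Real.log (d : ℝ) ^ 2⌋₊ := by
        apply Nat.le_floor
        push_cast
        have h1τ : 0 < 1 / τ i := by positivity
        have h7 : τ i * (1 / τ i) = 1 := mul_one_div_cancel h0.ne'
        have h8 : 1 ≤ τ i * Real.log (d : ℝ) := by nlinarith
        nlinarith
      have h9 : ⌊τ i * Real.log (d : ℝ) ^ 2⌋₊ - 1 + 1 = ⌊τ i * Real.log (d : ℝ) ^ 2⌋₊ := by omega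
      simp only [h9]
      exact h1)
  refine ⟨Ω, mΩ, P, hP, E, hE, hT, ?_⟩
  filter_upwards [hae] with ω hω
  intro ε hε
  obtain ⟨i₀, hi₀⟩ := exists_nat_one_div_lt (show (0:ℝ) < ε / 2 by positivity)
  refine ((hω i₀).and_eventually (tendsto_log_nat.eventually_ge_atTop (1 + 2 / ε))).mono ?_
  rintro d ⟨⟨hdD, i, hi, a, ha1, ha2, ha3, ha4⟩, hl⟩
  refine ⟨hdD, not_below_of_empty ha1 ha2 ha3 ha4 ?_⟩
  have hd0 : (0:ℝ) < d := by exact_mod_cast (by omega : 0 < d)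
  set ℓ := Real.log (d : ℝ) with hℓ
  have h2ε : 0 < 2 / ε := by positivity
  have hℓ0 : 0 < ℓ := by linarith
  have h1 : τ i * ℓ ^ 2 < (⌊τ i * ℓ ^ 2⌋₊ : ℝ) + 1 := Nat.lt_floor_add_one _
  have h2 : (⌊τ i * ℓ ^ 2⌋₊ : ℝ) ≤ ((⌊τ i * ℓ ^ 2⌋₊ - 1 + 1 : ℕ) : ℝ) := by
    exact_mod_cast (by omega : ⌊τ i * ℓ ^ 2⌋₊ ≤ ⌊τ i * ℓ ^ 2⌋₊ - 1 + 1)
  have h3 : Lam α - ε / 2 ≤ τ i := by
    have h4 : 1 / ((i : ℝ) + 1) ≤ 1 / ((i₀ : ℝ) + 1) := by
      apply one_div_le_one_div_of_le (by positivity)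
      have : (i₀ : ℝ) ≤ i := by exact_mod_cast hi
      linarith
    have := hτ1 i
    linarith
  have h5 : 1 ≤ ε / 2 * ℓ ^ 2 := by
    have h6 : ε / 2 * (2 / ε) = 1 := by field_simp
    have h7 : 1 ≤ ε / 2 * ℓ := by nlinarith
    nlinarith
  have h6 : (Lam α - ε) * ℓ ^ 2 ≤ ((⌊τ i * ℓ ^ 2⌋₊ - 1 + 1 : ℕ) : ℝ) := by
    have h7 : (Lam α - ε / 2) * ℓ ^ 2 ≤ τ i * ℓ ^ 2 := mul_le_mul_of_nonneg_right h3 (by positivity)
    nlinarith
  calc (Lam α - ε) * (d * ℓ ^ 2) = (Lam α - ε) * ℓ ^ 2 * d := by ring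
    _ ≤ _ := mul_le_mul_of_nonneg_right h6 hd0.le

/-- a model in which `p(d) / (d log ^ 2 d)` is unbounded -/
theorem log_none {κ : ℕ → ℕ} (hmono : Monotone κ)
    (h : ∀ c : ℝ, 0 < c → ∃ᶠ n : ℕ in atTop, (κ n : ℝ) < c * Real.log n) :
    ∃ (Ω : Type) (_ : MeasurableSpace Ω) (P : Measure Ω) (_ : IsProbabilityMeasure P)
      (E : ℕ → Set Ω), (∀ n, MeasurableSet (E n)) ∧
      (∀ T : Finset ℕ, (∀ n ∈ T, 3 ≤ n ∧ T.card ≤ κ n) →
        P (⋂ n ∈ T, E n) = ENNReal.ofReal (∏ n ∈ T, 1 / Real.log n)) ∧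
      ∀ᵐ ω ∂P, ∀ C : ℝ, ∃ᶠ d : ℕ in atTop,
        ¬ Below {n | ω ∈ E n} d (C * (d * Real.log d ^ 2)) := by
  obtain ⟨Ω, mΩ, P, hP, E, hE, hT, hae⟩ := prog_model_seq (κ := κ)
    (J := fun i d => ⌊((i : ℝ) + 1) * Real.log (d : ℝ) ^ 2⌋₊ - 1) (D := Set.univ)
    (by
      intro i
      have hi0 : (0:ℝ) ≤ i := Nat.cast_nonneg _
      set t : ℝ := (i : ℝ) + 1 with ht
      have ht1 : 1 ≤ t := by linarith
      have ht0 : 0 < t := by linarith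
      have hrate : rate (1 / t ^ 2) t < 1 := by
        unfold rate
        have h1 : 2 * t / (1 / t ^ 2) = 2 * t ^ 3 := by
          field_simp
        rw [h1, Real.log_mul (by norm_num) (by positivity), Real.log_pow]
        have h2 : Real.log t ≤ t - 1 := Real.log_le_sub_one_of_pos ht0
        have h3 : Real.log 2 < 0.6931471808 := Real.log_two_lt_d9
        have h4 : 1 / t ^ 2 / 2 * (1 + (Real.log 2 + ((3:ℕ) : ℝ) * Real.log t)) =
            (1 + (Real.log 2 + ((3:ℕ) : ℝ) * Real.log t)) / (2 * t ^ 2) := by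
          field_simp
        rw [h4, div_lt_one (by positivity)]
        push_cast
        nlinarith [sq_nonneg (t - 3 / 4)]
      have h1 := freq_small_log hmono h (c := 1 / t ^ 2) (τ := t) (by positivity) ht0
      have h2 := mass_log (a := 1 / t ^ 2) (τ := t) (by positivity) (by
        have h3 : 1 / t ^ 2 ≤ 1 := by
          rw [div_le_one (by positivity)]
          nlinarith
        linarith) hrate
      refine (h1.and_eventually (h2.and (tendsto_log_nat.eventually_ge_atTop 1))).mono ?_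
      rintro d ⟨h3, ⟨δ, h4, h5, h6⟩, h7⟩
      refine ⟨Set.mem_univ _, 2 * ⌈1 / t ^ 2 / 2 * Real.log (d : ℝ)⌉₊ + 1, δ, ?_, h4, h5, h6⟩
      have h8 : 1 ≤ ⌊t * Real.log (d : ℝ) ^ 2⌋₊ := by
        apply Nat.le_floor
        push_cast
        nlinarith
      have h9 : ⌊t * Real.log (d : ℝ) ^ 2⌋₊ - 1 + 1 = ⌊t * Real.log (d : ℝ) ^ 2⌋₊ := by omega
      simp only [h9]
      intro n hn
      have h10 : (κ n : ℝ) ≤ κ (⌊t * Real.log (d : ℝ) ^ 2⌋₊ * d) := by exact_mod_cast hmono hn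
      have h11 : 1 / t ^ 2 * Real.log (d : ℝ) ≤
          ((2 * ⌈1 / t ^ 2 / 2 * Real.log (d : ℝ)⌉₊ + 1 : ℕ) : ℝ) := by
        have := Nat.le_ceil (1 / t ^ 2 / 2 * Real.log (d : ℝ))
        push_cast
        linarith
      exact_mod_cast h10.trans (h3.trans h11))
  refine ⟨Ω, mΩ, P, hP, E, hE, hT, ?_⟩
  filter_upwards [hae] with ω hω
  intro C
  obtain ⟨i₀, hi₀⟩ := exists_nat_ge C
  refine ((hω i₀).and_eventually (tendsto_log_nat.eventually_ge_atTop 1)).mono ?_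
  rintro d ⟨⟨-, i, hi, a, ha1, ha2, ha3, ha4⟩, hl⟩
  refine not_below_of_empty ha1 ha2 ha3 ha4 ?_
  have hd0 : (0:ℝ) < d := by exact_mod_cast (by omega : 0 < d)
  set ℓ := Real.log (d : ℝ) with hℓ
  have hℓ0 : 0 < ℓ := by linarith
  have h1 : ((i : ℝ) + 1) * ℓ ^ 2 < (⌊((i : ℝ) + 1) * ℓ ^ 2⌋₊ : ℝ) + 1 := Nat.lt_floor_add_one _
  have h2 : (⌊((i : ℝ) + 1) * ℓ ^ 2⌋₊ : ℝ) ≤
      ((⌊((i : ℝ) + 1) * ℓ ^ 2⌋₊ - 1 + 1 : ℕ) : ℝ) := by
    exact_mod_cast (by omega : ⌊((i : ℝ) + 1) * ℓ ^ 2⌋₊ ≤ ⌊((i : ℝ) + 1) * ℓ ^ 2⌋₊ - 1 + 1)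
  have h3 : C ≤ i := by
    have : (i₀ : ℝ) ≤ i := by exact_mod_cast hi
    linarith
  have h4 : C * ℓ ^ 2 ≤ ((⌊((i : ℝ) + 1) * ℓ ^ 2⌋₊ - 1 + 1 : ℕ) : ℝ) := by
    have h5 : C * ℓ ^ 2 ≤ i * ℓ ^ 2 := mul_le_mul_of_nonneg_right h3 (by positivity)
    nlinarith
  calc C * (d * ℓ ^ 2) = C * ℓ ^ 2 * d := by ring
    _ ≤ _ := mul_le_mul_of_nonneg_right h4 hd0.le

end Q167.PR
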